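import Mathlib

set_option autoImplicit false

open Classical

namespace Pool.Agent.H90.TR

variable {V : Type} {G : SimpleGraph V} {F : Set (Finset V)} {d : ℕ}

/-- The hypotheses on the plane triangulation `(V, G, F)`, all degrees at least `d`. -/
structure Tri (G : SimpleGraph V) (F : Set (Finset V)) (d : ℕ) : Prop where
  inf : Infinite V
  conn : G.Connected
  deg : ∀ v : V, (G.neighborSet v).Finite ∧ d ≤ (G.neighborSet v).ncard
  face : ∀ f ∈ F, f.card = 3 ∧ ∀ x ∈ f, ∀ y ∈ f, x ≠ y → G.Adj x y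
  two : ∀ x y : V, G.Adj x y → {f : Finset V | f ∈ F ∧ x ∈ f ∧ y ∈ f}.ncard = 2
  link : ∀ v x y : V, G.Adj v x → G.Adj v y →
      (SimpleGraph.fromRel (fun a b : V => v ≠ a ∧ v ≠ b ∧
          ∃ f ∈ F, v ∈ f ∧ a ∈ f ∧ b ∈ f)).Reachable x y
  cyc : ∀ C : Finset (Sym2 V), (∀ e ∈ C, e ∈ G.edgeSet) →
      (∀ v : V, Even {e : Sym2 V | e ∈ C ∧ v ∈ e}.ncard) →
      ∃ S : Finset (Finset V), (∀ f ∈ S, f ∈ F) ∧
        ∀ e ∈ G.edgeSet, (e ∈ C ↔ Odd {f : Finset V | f ∈ S ∧ ∀ x ∈ e, x ∈ f}.ncard)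

/-- number of faces of `S` at the edge `xy` -/
noncomputable def cnt (S : Finset (Finset V)) (x y : V) : ℕ :=
  (S.filter (fun f => x ∈ f ∧ y ∈ f)).card

/-- number of faces of `S` at the vertex `v` -/
noncomputable def tt (S : Finset (Finset V)) (v : V) : ℕ := (S.filter (fun f => v ∈ f)).card

lemma cnt_comm (S : Finset (Finset V)) (x y : V) : cnt S x y = cnt S y x := by
  unfold cnt; congr 1; ext f; simp [and_comm]

lemma cnt_le_two (T : Tri G F d) {S : Finset (Finset V)} (hS : ∀ f ∈ S, f ∈ F) {x y : V}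
    (h : G.Adj x y) : cnt S x y ≤ 2 := by
  rw [← T.two x y h]
  have hfin : {f : Finset V | f ∈ F ∧ x ∈ f ∧ y ∈ f}.Finite := by
    apply Set.finite_of_ncard_ne_zero; rw [T.two x y h]; norm_num
  unfold cnt
  rw [← Set.ncard_coe_finset]
  apply Set.ncard_le_ncard _ hfin
  intro f hf
  simp only [Finset.coe_filter, Set.mem_ofPred_eq] at hf
  exact ⟨hS f hf.1, hf.2⟩

lemma all_of_two (T : Tri G F d) {S : Finset (Finset V)} (hS : ∀ f ∈ S, f ∈ F) {x y : V}
    (h : G.Adj x y) (h2 : cnt S x y = 2) : ∀ f ∈ F, x ∈ f → y ∈ f → f ∈ S := by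
  have hfin : {f : Finset V | f ∈ F ∧ x ∈ f ∧ y ∈ f}.Finite := by
    apply Set.finite_of_ncard_ne_zero; rw [T.two x y h]; norm_num
  have hsub : (↑(S.filter (fun f => x ∈ f ∧ y ∈ f)) : Set (Finset V)) ⊆
      {f : Finset V | f ∈ F ∧ x ∈ f ∧ y ∈ f} := by
    intro f hf
    simp only [Finset.coe_filter, Set.mem_ofPred_eq] at hf
    exact ⟨hS f hf.1, hf.2⟩
  have := Set.eq_of_subset_of_ncard_le hsub (by
    rw [T.two x y h, Set.ncard_coe_finset]; unfold cnt at h2; omega) hfin
  intro f hf hx hy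
  have h3 : f ∈ {f : Finset V | f ∈ F ∧ x ∈ f ∧ y ∈ f} := ⟨hf, hx, hy⟩
  rw [← this] at h3
  simp only [Finset.coe_filter, Set.mem_ofPred_eq] at h3
  exact h3.1

lemma one_le_cnt {S : Finset (Finset V)} {x y : V} {f : Finset V} (hf : f ∈ S) (hx : x ∈ f)
    (hy : y ∈ f) : 1 ≤ cnt S x y := by
  unfold cnt
  apply Finset.card_pos.2
  exact ⟨f, by simp [hf, hx, hy]⟩

lemma exists_of_cnt {S : Finset (Finset V)} {x y : V} (h : cnt S x y ≠ 0) :
    ∃ f ∈ S, x ∈ f ∧ y ∈ f := by
  unfold cnt at h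
  obtain ⟨f, hf⟩ := Finset.card_pos.1 (Nat.pos_of_ne_zero h)
  simp only [Finset.mem_filter] at hf
  exact ⟨f, hf.1, hf.2⟩

/-- local closure at a vertex -/
lemma star (T : Tri G F d) {S : Finset (Finset V)} (hS : ∀ f ∈ S, f ∈ F) {v : V}
    {f0 : Finset V} (hf0 : f0 ∈ S) (hv : v ∈ f0) (hno : ∀ a, G.Adj v a → cnt S v a ≠ 1) :
    ∀ a, G.Adj v a → cnt S v a = 2 := by
  obtain ⟨hc, hadj⟩ := T.face f0 (hS f0 hf0)
  obtain ⟨y, hy, hyv⟩ : ∃ y ∈ f0, y ≠ v := by
    apply Finset.exists_mem_ne (by omega)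
  have hvy : G.Adj v y := hadj v hv y hy (Ne.symm hyv)
  have h0 : cnt S v y = 2 := by
    have h1 := one_le_cnt hf0 hv hy
    have h2 := cnt_le_two T hS hvy
    have h3 := hno y hvy
    omega
  intro a ha
  have hr := (SimpleGraph.reachable_iff_reflTransGen _ _).1 (T.link v y a hvy ha)
  have : G.Adj v a ∧ cnt S v a = 2 := by
    induction hr with
    | refl => exact ⟨hvy, h0⟩
    | @tail b c _ hbc ih =>
      have hb : G.Adj v b ∧ cnt S v b = 2 := by
        by_cases hb : G.Adj v b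
        · exact ih hb
        · exfalso
          rw [SimpleGraph.fromRel_adj] at hbc
          rcases hbc with ⟨_, h | h⟩
          · obtain ⟨h1, h2, g, hg, h3, h4, h5⟩ := h
            exact hb ((T.face g hg).2 v h3 b h4 h1)
          · obtain ⟨h1, h2, g, hg, h3, h4, h5⟩ := h
            exact hb ((T.face g hg).2 v h3 b h5 h2)
      have key : ∃ g ∈ F, v ∈ g ∧ b ∈ g ∧ c ∈ g := by
        rw [SimpleGraph.fromRel_adj] at hbc
        rcases hbc with ⟨_, h | h⟩
        · obtain ⟨h1, h2, g, hg, h3, h4, h5⟩ := h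
          exact ⟨g, hg, h3, h4, h5⟩
        · obtain ⟨h1, h2, g, hg, h3, h4, h5⟩ := h
          exact ⟨g, hg, h3, h5, h4⟩
      obtain ⟨g, hg, h3, h4, h5⟩ := key
      have hgS := all_of_two T hS hb.1 hb.2 g hg h3 h4
      have h1 := one_le_cnt hgS h3 h5
      have h2 := cnt_le_two T hS ha
      have h3 := hno c ha
      exact ⟨ha, by omega⟩
  exact this.2

/-- a nonempty finite set of faces has a boundary edge -/
lemma exists_bdry (T : Tri G F d) {S : Finset (Finset V)} (hS : ∀ f ∈ S, f ∈ F)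
    (hne : S.Nonempty) : ∃ x y, G.Adj x y ∧ cnt S x y = 1 := by
  by_contra hcon
  push Not at hcon
  have hno : ∀ v a, G.Adj v a → cnt S v a ≠ 1 := fun v a h => hcon v a h
  obtain ⟨f0, hf0⟩ := hne
  obtain ⟨v0, hv0⟩ : f0.Nonempty := by
    rw [← Finset.card_pos, (T.face f0 (hS f0 hf0)).1]; norm_num
  have hall : ∀ v, ∃ f ∈ S, v ∈ f := by
    intro v
    obtain ⟨p⟩ := T.conn.preconnected v0 v
    induction p generalizing f0 with
    | nil => exact ⟨f0, hf0, hv0⟩
    | @cons a b c h p ih =>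
      obtain ⟨f, hf, hfb⟩ : ∃ f ∈ S, b ∈ f := by
        have h2 := star T hS hf0 hv0 (hno a) b h
        obtain ⟨g, hg, h3, h4⟩ := exists_of_cnt (S := S) (x := a) (y := b) (by omega)
        exact ⟨g, hg, h4⟩
      exact ih f hf hfb
  have hfin : (Set.univ : Set V).Finite := by
    apply Set.Finite.subset (Finset.finite_toSet (S.biUnion id))
    intro v _
    obtain ⟨f, hf, hv⟩ := hall v
    simp only [Finset.coe_biUnion, Set.mem_iUnion]
    exact ⟨f, hf, hv⟩
  have := T.inf
  exact Set.infinite_univ hfin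

/-- neighbours as a finset -/
noncomputable def nb (T : Tri G F d) (v : V) : Finset V := (T.deg v).1.toFinset

lemma mem_nb (T : Tri G F d) {v a : V} : a ∈ nb T v ↔ G.Adj v a := by
  unfold nb; simp

lemma card_nb (T : Tri G F d) (v : V) : d ≤ (nb T v).card := by
  unfold nb
  rw [← Set.ncard_eq_toFinset_card _ (T.deg v).1]
  exact (T.deg v).2

/-- double counting at a vertex -/
lemma dc (T : Tri G F d) {S : Finset (Finset V)} (hS : ∀ f ∈ S, f ∈ F) (v : V)
    (Q : V → Prop) :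
    ∑ a ∈ (nb T v).filter Q, cnt S v a
      = ∑ f ∈ S.filter (fun f => v ∈ f), ((f.erase v).filter Q).card := by
  have := Finset.sum_card_bipartiteAbove_eq_sum_card_bipartiteBelow
    (s := (nb T v).filter Q) (t := S.filter (fun f => v ∈ f)) (fun a f => a ∈ f)
  simp only [Finset.bipartiteAbove, Finset.bipartiteBelow] at this
  calc _ = ∑ a ∈ (nb T v).filter Q,
        ((S.filter (fun f => v ∈ f)).filter (fun f => a ∈ f)).card := by
        apply Finset.sum_congr rfl
        intro a _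
        unfold cnt
        rw [Finset.filter_filter]
    _ = _ := this
    _ = _ := by
        apply Finset.sum_congr rfl
        intro f hf
        rw [Finset.mem_filter] at hf
        congr 1
        ext a
        simp only [Finset.mem_filter, Finset.mem_erase, mem_nb T]
        constructor
        · rintro ⟨⟨h1, h2⟩, h3⟩
          exact ⟨⟨h1.ne', h3⟩, h2⟩
        · rintro ⟨⟨h1, h2⟩, h3⟩
          exact ⟨⟨(T.face f (hS f hf.1)).2 v hf.2 a h2 (Ne.symm h1), h3⟩, h2⟩

lemma dc2 (T : Tri G F d) {S : Finset (Finset V)} (hS : ∀ f ∈ S, f ∈ F) (v : V) :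
    ∑ a ∈ nb T v, cnt S v a = 2 * tt S v := by
  have := dc T hS v (fun _ => True)
  simp only [Finset.filter_true] at this
  rw [this]
  unfold tt
  rw [Finset.sum_congr rfl (g := fun _ => 2), Finset.sum_const, smul_eq_mul, mul_comm]
  intro f hf
  rw [Finset.mem_filter] at hf
  rw [Finset.card_erase_of_mem hf.2, (T.face f (hS f hf.1)).1]

/-- the set of boundary neighbours of a vertex is even -/
lemma even_bdry (T : Tri G F d) {S : Finset (Finset V)} (hS : ∀ f ∈ S, f ∈ F) (v : V) :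
    Even ((nb T v).filter (fun a => Odd (cnt S v a))).card := by
  have h1 : Even (∑ a ∈ nb T v, cnt S v a) := by rw [dc2 T hS v]; exact even_two_mul _
  rw [Finset.even_sum_iff_even_card_odd] at h1
  exact h1

/-- interior vertices -/
lemma tt_interior (T : Tri G F d) {S : Finset (Finset V)} (hS : ∀ f ∈ S, f ∈ F) {v : V}
    {f0 : Finset V} (hf0 : f0 ∈ S) (hv : v ∈ f0) (hno : ∀ a, G.Adj v a → cnt S v a ≠ 1) :
    d ≤ tt S v := by
  have h1 := star T hS hf0 hv hno
  have h2 := dc2 T hS v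
  rw [Finset.sum_congr rfl (g := fun _ => 2)] at h2
  · rw [Finset.sum_const, smul_eq_mul] at h2
    have := card_nb T v
    omega
  · intro a ha
    exact h1 a ((mem_nb T).1 ha)

/-- crossing lemma: if the only boundary neighbours of `v` are `u, u'` and `Q` separates
them, some face at `v` has its two other vertices separated by `Q`. -/
lemma cross (T : Tri G F d) {S : Finset (Finset V)} (hS : ∀ f ∈ S, f ∈ F) {v u u' : V}
    (hu : G.Adj v u) (hb : ∀ a, G.Adj v a → (Odd (cnt S v a) ↔ a = u ∨ a = u'))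
    (Q : V → Prop) (hQ : Q u) (hQ' : ¬ Q u') :
    ∃ f ∈ S, v ∈ f ∧ ∃ a ∈ f, ∃ b ∈ f, a ≠ v ∧ b ≠ v ∧ a ≠ b ∧ Q a ∧ ¬ Q b := by
  by_contra hcon
  push Not at hcon
  have h1 := dc T hS v Q
  have h2 : Even (∑ f ∈ S.filter (fun f => v ∈ f), ((f.erase v).filter Q).card) := by
    apply Finset.even_sum
    intro f hf
    rw [Finset.mem_filter] at hf
    have hc : (f.erase v).card = 2 := by
      rw [Finset.card_erase_of_mem hf.2, (T.face f (hS f hf.1)).1]
    obtain ⟨a, b, hab, he⟩ := Finset.card_eq_two.1 hc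
    have ha : a ∈ f.erase v := by rw [he]; simp
    have hb' : b ∈ f.erase v := by rw [he]; simp
    rw [Finset.mem_erase] at ha hb'
    have k1 := hcon f hf.1 hf.2 a ha.2 b hb'.2 ha.1 hb'.1 hab
    have k2 := hcon f hf.1 hf.2 b hb'.2 a ha.2 hb'.1 ha.1 hab.symm
    rw [he]
    by_cases hqa : Q a
    · have hqb := k1 hqa
      rw [Finset.filter_true_of_mem (by intro x hx; simp at hx; rcases hx with rfl | rfl <;> assumption)]
      rw [Finset.card_pair hab]
      exact even_two
    · have hqb : ¬ Q b := fun h => hqa (k2 h)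
      rw [Finset.filter_false_of_mem (by intro x hx; simp at hx; rcases hx with rfl | rfl <;> assumption)]
      simp
  rw [← h1, Finset.even_sum_iff_even_card_odd] at h2
  have h3 : ((nb T v).filter Q).filter (fun a => Odd (cnt S v a)) = {u} := by
    ext a
    simp only [Finset.mem_filter, mem_nb T, Finset.mem_singleton]
    constructor
    · rintro ⟨⟨h4, h5⟩, h6⟩
      rcases (hb a h4).1 h6 with h | h
      · exact h
      · exact absurd (h ▸ h5) hQ'
    · rintro rfl
      exact ⟨⟨hu, hQ⟩, (hb a hu).2 (Or.inl rfl)⟩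
  rw [h3] at h2
  simp at h2

end Pool.Agent.H90.TR
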