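import Pool.Agent.H90.TR.Base

set_option autoImplicit false

open Classical

namespace Pool.Agent.H90.TR

variable {V : Type} {G : SimpleGraph V} {F : Set (Finset V)} {d : ℕ} {N : ℕ} {c : ℕ → V}

structure Cyc (G : SimpleGraph V) (N : ℕ) (c : ℕ → V) : Prop where
  three : 3 ≤ N
  close : c N = c 0
  inj : ∀ i < N, ∀ j < N, c i = c j → i = j
  adj : ∀ i < N, G.Adj (c i) (c (i + 1))

noncomputable def eset (N : ℕ) (c : ℕ → V) : Finset (Sym2 V) :=
  (Finset.range N).image (fun i => s(c i, c (i + 1)))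

def prv (N k : ℕ) : ℕ := if k = 0 then N - 1 else k - 1

lemma prv_lt (hc : Cyc G N c) {k : ℕ} (hk : k < N) : prv N k < N := by
  unfold prv; have := hc.three; split_ifs <;> omega

lemma c_prv (hc : Cyc G N c) {k : ℕ} (hk : k < N) : c (prv N k + 1) = c k := by
  unfold prv; have := hc.three
  split_ifs with h
  · rw [Nat.sub_add_cancel (by omega), hc.close, h]
  · rw [Nat.sub_add_cancel (by omega)]

lemma mem_eset (a : Sym2 V) : a ∈ eset N c ↔ ∃ j < N, s(c j, c (j + 1)) = a := by
  unfold eset; simp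

lemma mem_eset_at (hc : Cyc G N c) {k : ℕ} (hk : k < N) (a : V) :
    s(c k, a) ∈ eset N c ↔ a = c (k + 1) ∨ a = c (prv N k) := by
  have h3 := hc.three
  rw [mem_eset]
  constructor
  · rintro ⟨j, hj, he⟩
    rw [Sym2.eq_iff] at he
    rcases he with ⟨h1, h2⟩ | ⟨h1, h2⟩
    · left
      have := hc.inj _ hj _ hk h1
      rw [← h2, this]
    · right
      by_cases hj1 : j + 1 < N
      · have h4 := hc.inj _ hj1 _ hk h2
        have : prv N k = j := by unfold prv; split_ifs <;> omega
        rw [this, h1]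
      · have hj2 : j + 1 = N := by omega
        rw [hj2, hc.close] at h2
        have h4 := hc.inj 0 (by omega) _ hk h2
        have : prv N k = j := by unfold prv; split_ifs <;> omega
        rw [this, h1]
  · rintro (rfl | rfl)
    · exact ⟨k, hk, rfl⟩
    · exact ⟨prv N k, prv_lt hc hk, by rw [c_prv hc hk, Sym2.eq_swap]⟩

lemma not_mem_eset {v : V} (hc : Cyc G N c) (hv : ∀ k < N, c k ≠ v) (a : V) :
    s(v, a) ∉ eset N c := by
  rw [mem_eset]
  rintro ⟨j, hj, he⟩
  rw [Sym2.eq_iff] at he
  rcases he with ⟨h1, h2⟩ | ⟨h1, h2⟩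
  · exact hv j hj h1
  · by_cases hj1 : j + 1 < N
    · exact hv _ hj1 h2
    · have hj2 : j + 1 = N := by omega
      rw [hj2, hc.close] at h2
      exact hv 0 (by have := hc.three; omega) h2

lemma nxt_ne_prv (hc : Cyc G N c) {k : ℕ} (hk : k < N) : c (k + 1) ≠ c (prv N k) := by
  have h3 := hc.three
  intro h
  have hp := prv_lt hc hk
  by_cases hk1 : k + 1 < N
  · have := hc.inj _ hk1 _ hp h
    unfold prv at this; split_ifs at this <;> omega
  · have hk2 : k + 1 = N := by omega
    rw [hk2, hc.close] at h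
    have := hc.inj 0 (by omega) _ hp h
    unfold prv at this; split_ifs at this <;> omega

lemma card_eset (hc : Cyc G N c) : (eset N c).card = N := by
  have h3 := hc.three
  unfold eset
  rw [Finset.card_image_of_injOn, Finset.card_range]
  intro i hi j hj h
  simp only [Finset.coe_range, Set.mem_Iio] at hi hj
  have h' : s(c i, c (i + 1)) = s(c j, c (j + 1)) := h
  rw [Sym2.eq_iff] at h'
  rcases h' with ⟨h1, _⟩ | ⟨h1, h2⟩
  · exact hc.inj _ hi _ hj h1
  · have e1 : j + 1 < N → i = j + 1 := fun hh => hc.inj _ hi _ hh h1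
    have e2 : j + 1 = N → i = 0 := fun hh => by
      rw [hh, hc.close] at h1; exact hc.inj _ hi _ (by omega) h1
    have e3 : i + 1 < N → i + 1 = j := fun hh => hc.inj _ hh _ hj h2
    have e4 : i + 1 = N → 0 = j := fun hh => by
      rw [hh, hc.close] at h2; exact hc.inj _ (by omega) _ hj h2
    omega

lemma even_eset (hc : Cyc G N c) (v : V) :
    Even {e : Sym2 V | e ∈ eset N c ∧ v ∈ e}.ncard := by
  by_cases hv : ∃ k < N, c k = v
  · obtain ⟨k, hk, rfl⟩ := hv
    have : {e : Sym2 V | e ∈ eset N c ∧ c k ∈ e} = {s(c k, c (k + 1)), s(c k, c (prv N k))} := by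
      ext e
      simp only [Set.mem_ofPred_eq, Set.mem_insert_iff, Set.mem_singleton_iff]
      constructor
      · rintro ⟨h1, h2⟩
        rw [Sym2.mem_iff_exists] at h2
        obtain ⟨a, rfl⟩ := h2
        rcases (mem_eset_at hc hk a).1 h1 with rfl | rfl
        · left; rfl
        · right; rfl
      · rintro (rfl | rfl)
        · exact ⟨(mem_eset_at hc hk _).2 (Or.inl rfl), by simp⟩
        · exact ⟨(mem_eset_at hc hk _).2 (Or.inr rfl), by simp⟩
    rw [this, Set.ncard_pair]
    · exact even_two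
    · intro h
      rw [Sym2.congr_right] at h
      exact nxt_ne_prv hc hk h
  · push Not at hv
    have : {e : Sym2 V | e ∈ eset N c ∧ v ∈ e} = ∅ := by
      ext e
      simp only [Set.mem_ofPred_eq, Set.mem_empty_iff_false, iff_false]
      rintro ⟨h1, h2⟩
      rw [Sym2.mem_iff_exists] at h2
      obtain ⟨a, rfl⟩ := h2
      exact not_mem_eset hc hv a h1
    rw [this]; simp

lemma cyc' (T : Tri G F d) (Z : Finset (Sym2 V)) (hZ : ∀ e ∈ Z, e ∈ G.edgeSet)
    (hev : ∀ v : V, Even {e : Sym2 V | e ∈ Z ∧ v ∈ e}.ncard) :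
    ∃ S : Finset (Finset V), (∀ f ∈ S, f ∈ F) ∧
      ∀ x y, G.Adj x y → (s(x, y) ∈ Z ↔ Odd (cnt S x y)) := by
  obtain ⟨S, hS, h⟩ := T.cyc Z hZ hev
  refine ⟨S, hS, fun x y hxy => ?_⟩
  rw [h s(x, y) hxy]
  have : {f : Finset V | f ∈ S ∧ ∀ z ∈ s(x, y), z ∈ f}.ncard = cnt S x y := by
    unfold cnt
    rw [← Set.ncard_coe_finset]
    congr 1
    ext f
    simp [Sym2.ball]
  rw [this]

lemma const (T : Tri G F d) (hc : Cyc G N c) {B : Finset (Finset V)} (hB : ∀ f ∈ B, f ∈ F)
    (hsub : ∀ x y, G.Adj x y → Odd (cnt B x y) → s(x, y) ∈ eset N c) :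
    ∀ j, j < N → (Odd (cnt B (c j) (c (j + 1))) ↔ Odd (cnt B (c 0) (c 1))) := by
  intro j
  induction j with
  | zero => intro _; rfl
  | succ j ih =>
    intro hj
    rw [← ih (by omega)]
    have hev := even_bdry T hB (c (j + 1))
    have hp : prv N (j + 1) = j := by unfold prv; simp
    have hX : ∀ a, a ∈ (nb T (c (j + 1))).filter (fun a => Odd (cnt B (c (j + 1)) a)) →
        a = c (j + 1 + 1) ∨ a = c j := by
      intro a ha
      rw [Finset.mem_filter, mem_nb T] at ha
      have := (mem_eset_at hc hj a).1 (hsub _ _ ha.1 ha.2)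
      rwa [hp] at this
    have hne := nxt_ne_prv hc hj
    rw [hp] at hne
    have a1 := hc.adj (j + 1) hj
    have a2 := (hc.adj j (by omega)).symm
    rw [cnt_comm B (c j) (c (j + 1))]
    by_cases h1 : Odd (cnt B (c (j + 1)) (c (j + 1 + 1))) <;>
    by_cases h2 : Odd (cnt B (c (j + 1)) (c j))
    · simp [h1, h2]
    · exfalso
      have : (nb T (c (j + 1))).filter (fun a => Odd (cnt B (c (j + 1)) a)) = {c (j + 1 + 1)} := by
        ext a
        simp only [Finset.mem_singleton]
        constructor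
        · intro ha
          rcases hX a ha with h | h
          · exact h
          · rw [Finset.mem_filter, h] at ha; exact absurd ha.2 h2
        · rintro rfl
          rw [Finset.mem_filter, mem_nb T]; exact ⟨a1, h1⟩
      rw [this] at hev; simp at hev
    · exfalso
      have : (nb T (c (j + 1))).filter (fun a => Odd (cnt B (c (j + 1)) a)) = {c j} := by
        ext a
        simp only [Finset.mem_singleton]
        constructor
        · intro ha
          rcases hX a ha with h | h
          · rw [Finset.mem_filter, h] at ha; exact absurd ha.2 h1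
          · exact h
        · rintro rfl
          rw [Finset.mem_filter, mem_nb T]; exact ⟨a2, h2⟩
      rw [this] at hev; simp at hev
    · simp [h1, h2]

/-- `D` is the inside of the cycle -/
def Inside (G : SimpleGraph V) (F : Set (Finset V)) (N : ℕ) (c : ℕ → V)
    (D : Finset (Finset V)) : Prop :=
  (∀ f ∈ D, f ∈ F) ∧ ∀ x y, G.Adj x y → (s(x, y) ∈ eset N c ↔ Odd (cnt D x y))

lemma exists_inside (T : Tri G F d) (hc : Cyc G N c) : ∃ D, Inside G F N c D := by
  obtain ⟨S, hS, h⟩ := cyc' T (eset N c) (by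
    intro e he
    rw [mem_eset] at he
    obtain ⟨j, hj, rfl⟩ := he
    exact hc.adj j hj) (even_eset hc)
  exact ⟨S, hS, h⟩

lemma bdry_empty (T : Tri G F d) {B : Finset (Finset V)} (hB : ∀ f ∈ B, f ∈ F)
    (h : ∀ x y, G.Adj x y → ¬ Odd (cnt B x y)) : B = ∅ := by
  by_contra hne
  obtain ⟨x, y, hxy, h1⟩ := exists_bdry T hB (Finset.nonempty_iff_ne_empty.2 hne)
  apply h x y hxy; rw [h1]; exact odd_one

lemma fill (T : Tri G F d) (hc : Cyc G N c) {D : Finset (Finset V)} (hD : Inside G F N c D)
    (Z : Finset (Sym2 V))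
    (hZ : ∀ x y, s(x, y) ∈ Z → G.Adj x y ∧ cnt D x y ≠ 0)
    (hev : ∀ v, Even {e : Sym2 V | e ∈ Z ∧ v ∈ e}.ncard) :
    ∃ S, S ⊆ D ∧ ∀ x y, G.Adj x y → (s(x, y) ∈ Z ↔ Odd (cnt S x y)) := by
  obtain ⟨S, hS, h⟩ := cyc' T Z (by
    intro e; induction e with | _ x y => intro he; exact (hZ x y he).1) hev
  refine ⟨S, ?_, h⟩
  have hBF : ∀ f ∈ S \ D, f ∈ F := fun f hf => hS f (Finset.mem_sdiff.1 hf).1
  have hle : ∀ x y, cnt (S \ D) x y ≤ cnt S x y := by
    intro x y; unfold cnt
    exact Finset.card_le_card (Finset.filter_subset_filter _ Finset.sdiff_subset)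
  have hsub : ∀ x y, G.Adj x y → Odd (cnt (S \ D) x y) → s(x, y) ∈ eset N c := by
    intro x y hxy hodd
    by_contra hcon
    have h1 : ¬ Odd (cnt D x y) := fun hh => hcon ((hD.2 x y hxy).2 hh)
    have h2 := cnt_le_two T hD.1 hxy
    have h3 : cnt D x y = 0 ∨ cnt D x y = 2 := by
      rw [Nat.not_odd_iff_even] at h1
      rcases h1 with ⟨m, hm⟩
      omega
    rcases h3 with h3 | h3
    · have h4 : cnt (S \ D) x y = cnt S x y := by
        unfold cnt at h3 ⊢
        congr 1
        ext f
        simp only [Finset.mem_filter, Finset.mem_sdiff]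
        constructor
        · rintro ⟨⟨a, b⟩, c⟩; exact ⟨a, c⟩
        · rintro ⟨a, c⟩
          refine ⟨⟨a, fun hf => ?_⟩, c⟩
          rw [Finset.card_eq_zero] at h3
          have : f ∈ D.filter (fun f => x ∈ f ∧ y ∈ f) := by
            rw [Finset.mem_filter]; exact ⟨hf, c⟩
          rw [h3] at this; simp at this
      rw [h4] at hodd
      exact (hZ x y ((h x y hxy).2 hodd)).2 h3
    · have h5 := all_of_two T hD.1 hxy h3
      have h6 : cnt (S \ D) x y = 0 := by
        by_contra hne
        obtain ⟨f, hf, hx, hy⟩ := exists_of_cnt hne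
        exact (Finset.mem_sdiff.1 hf).2 (h5 f (hBF f hf) hx hy)
      rw [h6] at hodd; simp at hodd
  have hconst := const T hc hBF hsub
  by_cases h0 : Odd (cnt (S \ D) (c 0) (c 1))
  · exfalso
    -- `S \ D` and `D` have the same boundary
    have hall : ∀ x y, G.Adj x y → s(x, y) ∈ eset N c → Odd (cnt (S \ D) x y) := by
      intro x y hxy hm
      rw [mem_eset] at hm
      obtain ⟨j, hj, he⟩ := hm
      have := (hconst j hj).2 h0
      rw [Sym2.eq_iff] at he
      rcases he with ⟨rfl, rfl⟩ | ⟨rfl, rfl⟩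
      · exact this
      · rw [cnt_comm]; exact this
    have hU : (S \ D) ∪ D = ∅ := by
      apply bdry_empty T
      · intro f hf
        rcases Finset.mem_union.1 hf with hf | hf
        · exact hBF f hf
        · exact hD.1 f hf
      · intro x y hxy
        have hadd : cnt ((S \ D) ∪ D) x y = cnt (S \ D) x y + cnt D x y := by
          unfold cnt
          rw [Finset.filter_union, Finset.card_union_of_disjoint]
          exact Finset.disjoint_filter_filter Finset.sdiff_disjoint
        rw [hadd, Nat.not_odd_iff_even]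
        by_cases hm : s(x, y) ∈ eset N c
        · exact (hall x y hxy hm).add_odd ((hD.2 x y hxy).1 hm)
        · have e1 : Even (cnt (S \ D) x y) := by
            rw [← Nat.not_odd_iff_even]; exact fun hh => hm (hsub x y hxy hh)
          have e2 : Even (cnt D x y) := by
            rw [← Nat.not_odd_iff_even]; exact fun hh => hm ((hD.2 x y hxy).2 hh)
          exact e1.add e2
    have hDe : D = ∅ := by
      have := Finset.union_eq_empty.1 hU
      exact this.2
    have h3 := hc.three
    have h1 := (hD.2 _ _ (hc.adj 0 (by omega))).1 ((mem_eset _).2 ⟨0, by omega, rfl⟩)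
    rw [hDe] at h1
    unfold cnt at h1
    simp at h1
  · have hB : S \ D = ∅ := by
      apply bdry_empty T hBF
      intro x y hxy hodd
      have hm := hsub x y hxy hodd
      rw [mem_eset] at hm
      obtain ⟨j, hj, he⟩ := hm
      apply h0
      rw [← hconst j hj]
      rw [Sym2.eq_iff] at he
      rcases he with ⟨rfl, rfl⟩ | ⟨rfl, rfl⟩
      · exact hodd
      · rw [cnt_comm]; exact hodd
    exact Finset.sdiff_eq_empty_iff_subset.1 hB

end Pool.Agent.H90.TR
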