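import Pool.Agent.H90.TR.Wk

set_option autoImplicit false

open Classical

namespace Pool.Agent.H90.TR

/-- the triangular lattice, as in the frozen statement -/
abbrev G6 : SimpleGraph (ℤ × ℤ) :=
  SimpleGraph.fromRel (fun p r : ℤ × ℤ =>
    (r.1 - p.1, r.2 - p.2) ∈ ({(1, 0), (0, 1), (-1, 1)} : Set (ℤ × ℤ)))

/-- the six directions -/
def D6 : Finset (ℤ × ℤ) := {(1, 0), (0, 1), (-1, 1), (-1, 0), (0, -1), (1, -1)}

lemma adj6 (p r : ℤ × ℤ) : G6.Adj p r ↔ r - p ∈ D6 := by
  obtain ⟨a, b⟩ := p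
  obtain ⟨c, e⟩ := r
  simp only [SimpleGraph.fromRel_adj, Set.mem_insert_iff, Set.mem_singleton_iff, Prod.mk.injEq,
    D6, Finset.mem_insert, Finset.mem_singleton, Prod.mk_sub_mk, ne_eq]
  omega

/-- neighbours -/
def N6 (v : ℤ × ℤ) : Finset (ℤ × ℤ) := D6.image (fun e => v + e)

lemma mem_N6 {v w : ℤ × ℤ} : w ∈ N6 v ↔ G6.Adj v w := by
  rw [adj6]
  unfold N6
  rw [Finset.mem_image]
  constructor
  · rintro ⟨e, he, rfl⟩; simpa using he
  · intro h; exact ⟨w - v, h, by simp⟩

lemma fin6 (v : ℤ × ℤ) : (G6.neighborSet v).Finite := by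
  apply Set.Finite.subset (Finset.finite_toSet (N6 v))
  intro w hw
  exact mem_N6.2 hw

lemma dir_count : ∀ e ∈ D6, (D6.filter (fun f => f - e ∈ D6)).card = 2 ∧
    (D6.filter (fun f => f ≠ e ∧ f - e ∉ D6)).card = 3 := by
  intro e he
  simp only [D6, Finset.mem_insert, Finset.mem_singleton] at he
  rcases he with rfl | rfl | rfl | rfl | rfl | rfl <;> constructor <;> decide

lemma common {u v : ℤ × ℤ} (h : G6.Adj v u) :
    ((N6 v).filter (fun w => G6.Adj u w)).card = 2 ∧
    ((N6 v).filter (fun w => w ≠ u ∧ ¬ G6.Adj u w)).card = 3 := by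
  have he : u - v ∈ D6 := (adj6 _ _).1 h
  obtain ⟨h1, h2⟩ := dir_count _ he
  have key : ∀ (Q : ℤ × ℤ → Prop) (R : ℤ × ℤ → Prop), (∀ f, Q (v + f) ↔ R f) →
      ((N6 v).filter Q).card = (D6.filter R).card := by
    intro Q R hQR
    unfold N6
    rw [Finset.filter_image, Finset.card_image_of_injective _ (add_right_injective v)]
    congr 1
    ext f
    simp only [Finset.mem_filter, hQR f]
  constructor
  · have h3 := key (fun w => G6.Adj u w) (fun f => f - (u - v) ∈ D6) (by
      intro f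
      show G6.Adj u (v + f) ↔ _
      rw [adj6, show v + f - u = f - (u - v) by ring])
    rw [← h1]
    convert h3
  · have h3 := key (fun w => w ≠ u ∧ ¬ G6.Adj u w)
      (fun f => f ≠ u - v ∧ f - (u - v) ∉ D6) (by
      intro f
      show v + f ≠ u ∧ ¬ G6.Adj u (v + f) ↔ _
      rw [adj6, show v + f - u = f - (u - v) by ring]
      have : v + f = u ↔ f = u - v := by
        constructor
        · intro h; rw [← h]; ring
        · intro h; rw [h]; ring
      rw [Ne, this])
    rw [← h2]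
    convert h3

/-- paths of length `n` from `v` avoiding `u` -/
def PO (n : ℕ) (u v : ℤ × ℤ) : Set (Σ w, G6.Walk v w) :=
  {q | q.2.IsPath ∧ q.2.length = n ∧ u ∉ q.2.support}

/-- paths of length `n` from `v` avoiding `t` and `u` -/
def PT (n : ℕ) (t u v : ℤ × ℤ) : Set (Σ w, G6.Walk v w) :=
  {q | q.2.IsPath ∧ q.2.length = n ∧ t ∉ q.2.support ∧ u ∉ q.2.support}

lemma PO_fin (n : ℕ) (u v : ℤ × ℤ) : (PO n u v).Finite :=
  (Wn_fin fin6 n v).subset (fun _ hq => hq.2.1)
lemma PT_fin (n : ℕ) (t u v : ℤ × ℤ) : (PT n t u v).Finite :=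
  (Wn_fin fin6 n v).subset (fun _ hq => hq.2.1)

lemma len_zero {V : Type} {G : SimpleGraph V} (v : V) (Y : Set (Σ w, G.Walk v w))
    (hY : ∀ q ∈ Y, q.2.length = 0) : Y.ncard ≤ 1 := by
  have : Y ⊆ {⟨v, SimpleGraph.Walk.nil⟩} := by
    rintro ⟨w, q⟩ hq
    have := hY _ hq
    cases q with
    | nil => rfl
    | cons h p => simp at this
  have h2 := Set.ncard_le_ncard this (Set.finite_singleton _)
  rwa [Set.ncard_singleton] at h2

lemma both_bounds : ∀ n : ℕ,
    (∀ u v, G6.Adj v u → ((PO n u v).ncard : ℝ) ≤ (1.22 : ℝ) * (4.66 : ℝ) ^ n) ∧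
    (∀ t u v, G6.Adj v u → G6.Adj v t → G6.Adj u t →
      ((PT n t u v).ncard : ℝ) ≤ (4.66 : ℝ) ^ n) := by
  intro n
  induction n with
  | zero =>
    constructor
    · intro u v _
      have := len_zero v (PO 0 u v) (fun q hq => hq.2.1)
      have h2 : ((PO 0 u v).ncard : ℝ) ≤ 1 := by exact_mod_cast this
      rw [pow_zero]; linarith
    · intro t u v _ _ _
      have := len_zero v (PT 0 t u v) (fun q hq => hq.2.1)
      have h2 : ((PT 0 t u v).ncard : ℝ) ≤ 1 := by exact_mod_cast this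
      rw [pow_zero]; linarith
  | succ n ih =>
    obtain ⟨ihO, ihT⟩ := ih
    constructor
    · intro u v huv
      obtain ⟨c1, c2⟩ := common huv
      have hsub : PO (n + 1) u v ⊆
          (⋃ w ∈ (N6 v).filter (fun w => G6.Adj u w), cm v w (PT n u v w)) ∪
          (⋃ w ∈ (N6 v).filter (fun w => w ≠ u ∧ ¬ G6.Adj u w), cm v w (PO n v w)) := by
        rintro ⟨x, q⟩ ⟨h1, h2, h3⟩
        cases q with
        | nil => simp at h2
        | @cons _ w _ h p =>
          simp only [SimpleGraph.Walk.length_cons, Nat.add_right_cancel_iff] at h2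
          rw [SimpleGraph.Walk.cons_isPath_iff] at h1
          simp only [SimpleGraph.Walk.support_cons, List.mem_cons, not_or] at h3
          have hwu : w ≠ u := by
            rintro rfl; exact h3.2 (SimpleGraph.Walk.start_mem_support _)
          by_cases huw : G6.Adj u w
          · left
            simp only [Set.mem_iUnion]
            exact ⟨w, by rw [Finset.mem_filter, mem_N6]; exact ⟨h, huw⟩,
              h, ⟨x, p⟩, ⟨h1.1, h2, h3.2, h1.2⟩, rfl⟩
          · right
            simp only [Set.mem_iUnion]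
            exact ⟨w, by rw [Finset.mem_filter, mem_N6]; exact ⟨h, hwu, huw⟩,
              h, ⟨x, p⟩, ⟨h1.1, h2, h1.2⟩, rfl⟩
      have h1 := ncard_le_sum ((N6 v).filter (fun w => G6.Adj u w))
        (fun w => cm v w (PT n u v w)) _ (fun w _ => cm_fin (PT_fin n u v w)) subset_rfl
      have h2 := ncard_le_sum ((N6 v).filter (fun w => w ≠ u ∧ ¬ G6.Adj u w))
        (fun w => cm v w (PO n v w)) _ (fun w _ => cm_fin (PO_fin n v w)) subset_rfl
      have h3 : ((PO (n + 1) u v).ncard : ℝ) ≤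
          (∑ w ∈ (N6 v).filter (fun w => G6.Adj u w), (cm v w (PT n u v w)).ncard : ℕ) +
          (∑ w ∈ (N6 v).filter (fun w => w ≠ u ∧ ¬ G6.Adj u w), (cm v w (PO n v w)).ncard : ℕ) := by
        have hfin : ((⋃ w ∈ (N6 v).filter (fun w => G6.Adj u w), cm v w (PT n u v w)) ∪
          (⋃ w ∈ (N6 v).filter (fun w => w ≠ u ∧ ¬ G6.Adj u w), cm v w (PO n v w))).Finite := by
          apply Set.Finite.union
          · exact Set.Finite.biUnion (Finset.finite_toSet _) (fun w _ => cm_fin (PT_fin n u v w))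
          · exact Set.Finite.biUnion (Finset.finite_toSet _) (fun w _ => cm_fin (PO_fin n v w))
        have h4 := Set.ncard_le_ncard hsub hfin
        have h5 := Set.ncard_union_le
          (⋃ w ∈ (N6 v).filter (fun w => G6.Adj u w), cm v w (PT n u v w))
          (⋃ w ∈ (N6 v).filter (fun w => w ≠ u ∧ ¬ G6.Adj u w), cm v w (PO n v w))
        exact_mod_cast le_trans h4 (le_trans h5 (add_le_add h1 h2))
      push_cast at h3
      have h4 : (∑ w ∈ (N6 v).filter (fun w => G6.Adj u w),
          ((cm v w (PT n u v w)).ncard : ℝ)) ≤ 2 * (4.66 : ℝ) ^ n := by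
        calc _ ≤ ∑ w ∈ (N6 v).filter (fun w => G6.Adj u w), (4.66 : ℝ) ^ n := by
              apply Finset.sum_le_sum
              intro w hw
              rw [Finset.mem_filter, mem_N6] at hw
              rw [ncard_cm hw.1]
              exact ihT u v w hw.1.symm hw.2.symm huv
          _ = _ := by rw [Finset.sum_const, c1, nsmul_eq_mul]; norm_num
      have h5 : (∑ w ∈ (N6 v).filter (fun w => w ≠ u ∧ ¬ G6.Adj u w),
          ((cm v w (PO n v w)).ncard : ℝ)) ≤ 3 * ((1.22 : ℝ) * (4.66 : ℝ) ^ n) := by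
        calc _ ≤ ∑ w ∈ (N6 v).filter (fun w => w ≠ u ∧ ¬ G6.Adj u w),
              (1.22 : ℝ) * (4.66 : ℝ) ^ n := by
              apply Finset.sum_le_sum
              intro w hw
              rw [Finset.mem_filter, mem_N6] at hw
              rw [ncard_cm hw.1]
              exact ihO v w hw.1.symm
          _ = _ := by rw [Finset.sum_const, c2, nsmul_eq_mul]; norm_num
      have h6 : (0 : ℝ) < 4.66 ^ n := by positivity
      rw [pow_succ]
      nlinarith
    · intro t u v huv htv hut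
      obtain ⟨c1, c2⟩ := common huv
      have c1' : (((N6 v).filter (fun w => G6.Adj u w)).erase t).card = 1 := by
        rw [Finset.card_erase_of_mem, c1]
        rw [Finset.mem_filter, mem_N6]; exact ⟨htv, hut⟩
      have hsub : PT (n + 1) t u v ⊆
          (⋃ w ∈ ((N6 v).filter (fun w => G6.Adj u w)).erase t, cm v w (PT n u v w)) ∪
          (⋃ w ∈ (N6 v).filter (fun w => w ≠ u ∧ ¬ G6.Adj u w), cm v w (PO n v w)) := by
        rintro ⟨x, q⟩ ⟨h1, h2, h0, h3⟩
        cases q with
        | nil => simp at h2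
        | @cons _ w _ h p =>
          simp only [SimpleGraph.Walk.length_cons, Nat.add_right_cancel_iff] at h2
          rw [SimpleGraph.Walk.cons_isPath_iff] at h1
          simp only [SimpleGraph.Walk.support_cons, List.mem_cons, not_or] at h3 h0
          have hwu : w ≠ u := by
            rintro rfl; exact h3.2 (SimpleGraph.Walk.start_mem_support _)
          have hwt : w ≠ t := by
            rintro rfl; exact h0.2 (SimpleGraph.Walk.start_mem_support _)
          by_cases huw : G6.Adj u w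
          · left
            simp only [Set.mem_iUnion]
            exact ⟨w, by rw [Finset.mem_erase, Finset.mem_filter, mem_N6]; exact ⟨hwt, h, huw⟩,
              h, ⟨x, p⟩, ⟨h1.1, h2, h3.2, h1.2⟩, rfl⟩
          · right
            simp only [Set.mem_iUnion]
            exact ⟨w, by rw [Finset.mem_filter, mem_N6]; exact ⟨h, hwu, huw⟩,
              h, ⟨x, p⟩, ⟨h1.1, h2, h1.2⟩, rfl⟩
      have h1 := ncard_le_sum (((N6 v).filter (fun w => G6.Adj u w)).erase t)
        (fun w => cm v w (PT n u v w)) _ (fun w _ => cm_fin (PT_fin n u v w)) subset_rfl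
      have h2 := ncard_le_sum ((N6 v).filter (fun w => w ≠ u ∧ ¬ G6.Adj u w))
        (fun w => cm v w (PO n v w)) _ (fun w _ => cm_fin (PO_fin n v w)) subset_rfl
      have h3 : ((PT (n + 1) t u v).ncard : ℝ) ≤
          (∑ w ∈ ((N6 v).filter (fun w => G6.Adj u w)).erase t,
            (cm v w (PT n u v w)).ncard : ℕ) +
          (∑ w ∈ (N6 v).filter (fun w => w ≠ u ∧ ¬ G6.Adj u w), (cm v w (PO n v w)).ncard : ℕ) := by
        have hfin : ((⋃ w ∈ ((N6 v).filter (fun w => G6.Adj u w)).erase t,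
            cm v w (PT n u v w)) ∪
          (⋃ w ∈ (N6 v).filter (fun w => w ≠ u ∧ ¬ G6.Adj u w), cm v w (PO n v w))).Finite := by
          apply Set.Finite.union
          · exact Set.Finite.biUnion (Finset.finite_toSet _) (fun w _ => cm_fin (PT_fin n u v w))
          · exact Set.Finite.biUnion (Finset.finite_toSet _) (fun w _ => cm_fin (PO_fin n v w))
        have h4 := Set.ncard_le_ncard hsub hfin
        have h5 := Set.ncard_union_le
          (⋃ w ∈ ((N6 v).filter (fun w => G6.Adj u w)).erase t, cm v w (PT n u v w))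
          (⋃ w ∈ (N6 v).filter (fun w => w ≠ u ∧ ¬ G6.Adj u w), cm v w (PO n v w))
        exact_mod_cast le_trans h4 (le_trans h5 (add_le_add h1 h2))
      push_cast at h3
      have h4 : (∑ w ∈ ((N6 v).filter (fun w => G6.Adj u w)).erase t,
          ((cm v w (PT n u v w)).ncard : ℝ)) ≤ (4.66 : ℝ) ^ n := by
        calc _ ≤ ∑ w ∈ ((N6 v).filter (fun w => G6.Adj u w)).erase t, (4.66 : ℝ) ^ n := by
              apply Finset.sum_le_sum
              intro w hw
              rw [Finset.mem_erase, Finset.mem_filter, mem_N6] at hw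
              rw [ncard_cm hw.2.1]
              exact ihT u v w hw.2.1.symm hw.2.2.symm huv
          _ = _ := by rw [Finset.sum_const, c1', nsmul_eq_mul]; norm_num
      have h5 : (∑ w ∈ (N6 v).filter (fun w => w ≠ u ∧ ¬ G6.Adj u w),
          ((cm v w (PO n v w)).ncard : ℝ)) ≤ 3 * ((1.22 : ℝ) * (4.66 : ℝ) ^ n) := by
        calc _ ≤ ∑ w ∈ (N6 v).filter (fun w => w ≠ u ∧ ¬ G6.Adj u w),
              (1.22 : ℝ) * (4.66 : ℝ) ^ n := by
              apply Finset.sum_le_sum
              intro w hw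
              rw [Finset.mem_filter, mem_N6] at hw
              rw [ncard_cm hw.1]
              exact ihO v w hw.1.symm
          _ = _ := by rw [Finset.sum_const, c2, nsmul_eq_mul]; norm_num
      have h6 : (0 : ℝ) < 4.66 ^ n := by positivity
      rw [pow_succ]
      nlinarith

lemma card_N6 (v : ℤ × ℤ) : (N6 v).card = 6 := by
  unfold N6
  rw [Finset.card_image_of_injective _ (add_right_injective v)]
  decide

/-- the number of paths of length `n` in the triangular lattice -/
lemma tri_upper (n : ℕ) :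
    (Set.ncard {q : (Σ w : ℤ × ℤ, G6.Walk ((0, 0) : ℤ × ℤ) w) |
      q.2.IsPath ∧ q.2.length = n} : ℝ) ≤ 2 * (4.66 : ℝ) ^ n := by
  cases n with
  | zero =>
    have := len_zero ((0, 0) : ℤ × ℤ) {q : (Σ w : ℤ × ℤ, G6.Walk ((0, 0) : ℤ × ℤ) w) |
      q.2.IsPath ∧ q.2.length = 0} (fun q hq => hq.2)
    have h2 : (Set.ncard {q : (Σ w : ℤ × ℤ, G6.Walk ((0, 0) : ℤ × ℤ) w) |
      q.2.IsPath ∧ q.2.length = 0} : ℝ) ≤ 1 := by exact_mod_cast this
    rw [pow_zero]; linarith
  | succ n =>
    have hsub : {q : (Σ w : ℤ × ℤ, G6.Walk ((0, 0) : ℤ × ℤ) w) |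
        q.2.IsPath ∧ q.2.length = n + 1} ⊆
        ⋃ w ∈ N6 (0, 0), cm (0, 0) w (PO n (0, 0) w) := by
      rintro ⟨x, q⟩ ⟨h1, h2⟩
      cases q with
      | nil => simp at h2
      | @cons _ w _ h p =>
        simp only [SimpleGraph.Walk.length_cons, Nat.add_right_cancel_iff] at h2
        rw [SimpleGraph.Walk.cons_isPath_iff] at h1
        simp only [Set.mem_iUnion]
        exact ⟨w, mem_N6.2 h, h, ⟨x, p⟩, ⟨h1.1, h2, h1.2⟩, rfl⟩
    have h1 := ncard_le_sum (N6 (0, 0)) (fun w => cm (0, 0) w (PO n (0, 0) w)) _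
      (fun w _ => cm_fin (PO_fin n _ w)) hsub
    have h2 : (Set.ncard {q : (Σ w : ℤ × ℤ, G6.Walk ((0, 0) : ℤ × ℤ) w) |
        q.2.IsPath ∧ q.2.length = n + 1} : ℝ) ≤
        ∑ w ∈ N6 (0, 0), ((cm (0, 0) w (PO n (0, 0) w)).ncard : ℝ) := by exact_mod_cast h1
    have h3 : (∑ w ∈ N6 (0, 0), ((cm (0, 0) w (PO n (0, 0) w)).ncard : ℝ))
        ≤ 6 * ((1.22 : ℝ) * 4.66 ^ n) := by
      calc _ ≤ ∑ w ∈ N6 (0, 0), (1.22 : ℝ) * (4.66 : ℝ) ^ n := by
            apply Finset.sum_le_sum
            intro w hw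
            rw [mem_N6] at hw
            rw [ncard_cm hw]
            exact (both_bounds n).1 _ w hw.symm
        _ = _ := by rw [Finset.sum_const, card_N6, nsmul_eq_mul]; norm_num
    have h6 : (0 : ℝ) < 4.66 ^ n := by positivity
    rw [pow_succ]
    nlinarith

end Pool.Agent.H90.TR
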