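import Pool.Agent.H90.TR.Low
import Pool.Agent.H90.TR.Up

set_option autoImplicit false

open Classical

namespace Pool.Agent.H90.TR

variable {V : Type} {G : SimpleGraph V} {F : Set (Finset V)} {d : ℕ}

lemma card_split' (T : Tri G F d) (o x : V) :
    (nb T x).card ≤ (par T o x).card + (sib T o x).card + (chl T o x).card := by
  have : nb T x ⊆ par T o x ∪ sib T o x ∪ chl T o x := by
    intro a ha
    rw [mem_nb T] at ha
    have h1 := lev_le T o a x ha.symm
    have h2 := lev_le T o x a ha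
    simp only [Finset.mem_union, mem_par T, mem_sib T, mem_chl T]
    have : G.dist o a + 1 = G.dist o x ∨ G.dist o a = G.dist o x ∨
      G.dist o a = G.dist o x + 1 := by omega
    rcases this with h | h | h
    · exact Or.inl (Or.inl ⟨ha, h⟩)
    · exact Or.inl (Or.inr ⟨ha, h⟩)
    · exact Or.inr ⟨ha, h⟩
  refine le_trans (Finset.card_le_card this) (le_trans (Finset.card_union_le _ _) ?_)
  have := Finset.card_union_le (par T o x) (sib T o x)
  omega

/-- the two-valued potential -/
noncomputable def pot (T : Tri G F d) (o : V) (α β : ℝ) (v : V) : ℝ :=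
  if (par T o v).card = 1 then α else β

lemma S_lower (T : Tri G F d) (hd : 6 ≤ d) (o : V) {α β : ℝ} (hα : 0 ≤ α) (hβ : β ≤ α) {v : V}
    (hv : 0 < G.dist o v) {k : ℕ} (hk : k ≤ (nb T v).card) :
    α * ((k : ℝ) - (par T o v).card - 4) + 2 * β ≤ ∑ c ∈ chl T o v, pot T o α β c := by
  have h1 := card_split' T o v
  have h2 := (shape T hd hv).2
  have h3 := card_chB T hd hv
  have h4 : ∑ c ∈ chl T o v, pot T o α β c
      = β * (chB T o v).card + α * (((chl T o v).card : ℝ) - (chB T o v).card) := by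
    have e1 := Finset.card_filter_add_card_filter_not (s := chl T o v) (fun c => (par T o c).card = 1)
    have e2 : ∑ c ∈ chl T o v, pot T o α β c =
        ∑ c ∈ (chl T o v).filter (fun c => (par T o c).card = 1), α
        + ∑ c ∈ chB T o v, β := by
      unfold chB pot
      rw [Finset.sum_ite]
    rw [e2, Finset.sum_const, Finset.sum_const, nsmul_eq_mul, nsmul_eq_mul]
    have e3 : (((chl T o v).filter (fun c => (par T o c).card = 1)).card : ℝ)
        = ((chl T o v).card : ℝ) - (chB T o v).card := by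
      rw [← e1]; unfold chB; push_cast; ring
    rw [e3]; ring
  rw [h4]
  have h5 : (k : ℝ) ≤ (par T o v).card + 2 + (chl T o v).card := by
    have : k ≤ (par T o v).card + 2 + (chl T o v).card := by omega
    exact_mod_cast this
  have h6 : ((chB T o v).card : ℝ) ≤ 2 := by exact_mod_cast h3
  nlinarith [mul_nonneg (sub_nonneg.2 hβ) (sub_nonneg.2 h6), mul_le_mul_of_nonneg_left h5 hα]

lemma growth7 (T : Tri G F d) (hd : 6 ≤ d) (o : V) {n0 : ℕ} (hn0 : 1 ≤ n0)
    (h7 : ∀ v, n0 ≤ G.dist o v → 7 ≤ (nb T v).card) :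
    ∃ C : ℝ, 0 < C ∧ ∀ n : ℕ, n0 ≤ n → C * (4.67 : ℝ) ^ n ≤
      (Set.ncard {q : (Σ w : V, G.Walk o w) | q.2.IsPath ∧ q.2.length = n} : ℝ) := by
  have hpot : ∀ v, pot T o 1.272 1 v ≤ 1.272 ∧ 1 ≤ pot T o 1.272 1 v := by
    intro v; unfold pot; split_ifs <;> norm_num
  apply paths_growth T hd o (l := 4.67) (κ := 1 / 6) (by norm_num) (by norm_num)
    (w := pot T o 1.272 1)
  · intro v; linarith [(hpot v).2]
  · intro v; linarith [(hpot v).1]
  · intro v; linarith [(hpot v).1]
  · intro v hv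
    have hS : ∀ s, n0 ≤ G.dist o s →
        1.272 * ((7 : ℝ) - (par T o s).card - 4) + 2 ≤ ∑ c ∈ chl T o s, pot T o 1.272 1 c := by
      intro s hs
      have := S_lower T hd o (α := 1.272) (β := 1) (by norm_num) (by norm_num) (v := s)
        (by omega) (h7 s hs)
      push_cast at this
      linarith
    have hsib : (3.272 : ℝ) * 2 ≤ ∑ s ∈ sib T o v, ∑ c ∈ chl T o s, pot T o 1.272 1 c := by
      have e1 : (3.272 : ℝ) * 2 = ∑ s ∈ sib T o v, (3.272 : ℝ) := by
        rw [Finset.sum_const, (shape T hd (o := o) (x := v) (by omega)).2, nsmul_eq_mul]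
        norm_num
      rw [e1]
      apply Finset.sum_le_sum
      intro s hs
      rw [mem_sib T] at hs
      have h1 := hS s (by omega)
      have h2 := (shape T hd (o := o) (x := s) (by omega)).1
      rcases h2 with h2 | h2 <;> rw [h2] at h1 <;> push_cast at h1 <;> linarith
    have h1 := hS v hv
    have h2 := (shape T hd (o := o) (x := v) (by omega)).1
    rcases h2 with h2 | h2
    · have e : pot T o 1.272 1 v = 1.272 := by unfold pot; rw [if_pos h2]
      rw [h2] at h1; rw [e]; push_cast at h1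
      nlinarith
    · have e : pot T o 1.272 1 v = 1 := by unfold pot; rw [if_neg (by omega)]
      rw [h2] at h1; rw [e]; push_cast at h1
      nlinarith

lemma growth6 (T : Tri G F d) (hd : 6 ≤ d) (o : V) :
    ∃ C : ℝ, 0 < C ∧ ∀ n : ℕ, 1 ≤ n → C * (1 + Real.sqrt 5) ^ n ≤
      (Set.ncard {q : (Σ w : V, G.Walk o w) | q.2.IsPath ∧ q.2.length = n} : ℝ) := by
  have h5 : Real.sqrt 5 ^ 2 = 5 := Real.sq_sqrt (by norm_num)
  have h5' : Real.sqrt 5 ≤ 3 := by
    rw [Real.sqrt_le_left (by norm_num)]; norm_num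
  have h5'' : 0 ≤ Real.sqrt 5 := Real.sqrt_nonneg _
  apply paths_growth T hd o (l := 1 + Real.sqrt 5) (κ := 1 / 4) (by positivity) (by norm_num)
    (w := fun _ => 1)
  · intro v; norm_num
  · intro v; norm_num
  · intro v; linarith
  · intro v hv
    have hS : ∀ s, 1 ≤ G.dist o s → (2 : ℝ) ≤ ∑ c ∈ chl T o s, (1 : ℝ) := by
      intro s hs
      rw [Finset.sum_const, nsmul_eq_mul, mul_one]
      have h1 := card_split T o s
      have h2 := shape T hd (o := o) (x := s) (by omega)
      have : 2 ≤ (chl T o s).card := by omega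
      exact_mod_cast this
    have hsib : (2 : ℝ) * 2 ≤ ∑ s ∈ sib T o v, ∑ c ∈ chl T o s, (1 : ℝ) := by
      have e1 : (2 : ℝ) * 2 = ∑ s ∈ sib T o v, (2 : ℝ) := by
        rw [Finset.sum_const, (shape T hd (o := o) (x := v) (by omega)).2, nsmul_eq_mul]
        norm_num
      rw [e1]
      apply Finset.sum_le_sum
      intro s hs
      rw [mem_sib T] at hs
      exact hS s (by omega)
    have h1 := hS v hv
    nlinarith

lemma rpow_pow_cancel {X : ENNReal} {n : ℕ} (hn : n ≠ 0) :
    (X ^ n) ^ ((1 : ℝ) / n) = X := by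
  rw [← ENNReal.rpow_natCast, ← ENNReal.rpow_mul]
  rw [mul_one_div_cancel (by exact_mod_cast hn), ENNReal.rpow_one]

lemma limsup_lower {a : ℕ → ℕ} {l l' C : ℝ} (hl' : 0 < l') (hll : l' < l) (hC : 0 < C) {n0 : ℕ}
    (h : ∀ n, n0 ≤ n → C * l ^ n ≤ a n) :
    ENNReal.ofReal l' ≤ Filter.limsup (fun n : ℕ => ((a n : ENNReal)) ^ ((1 : ℝ) / n))
      Filter.atTop := by
  refine Filter.le_limsup_of_frequently_le ?_ (by isBoundedDefault)
  · apply Filter.Eventually.frequently
    have h1 : Filter.Tendsto (fun n : ℕ => (l / l') ^ n) Filter.atTop Filter.atTop :=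
      tendsto_pow_atTop_atTop_of_one_lt ((one_lt_div hl').2 hll)
    filter_upwards [h1.eventually_ge_atTop (1 / C), Filter.eventually_ge_atTop n0,
      Filter.eventually_ge_atTop 1] with n h2 h3 h4
    have h5 : l' ^ n ≤ (a n : ℝ) := by
      refine le_trans ?_ (h n h3)
      rw [div_pow, le_div_iff₀ (by positivity), div_mul_eq_mul_div, one_mul, div_le_iff₀ hC] at h2
      linarith
    have h6 : (ENNReal.ofReal l') ^ n ≤ (a n : ENNReal) := by
      rw [← ENNReal.ofReal_pow hl'.le, ← ENNReal.ofReal_natCast]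
      exact ENNReal.ofReal_le_ofReal h5
    calc ENNReal.ofReal l' = ((ENNReal.ofReal l') ^ n) ^ ((1 : ℝ) / n) :=
          (rpow_pow_cancel (by omega)).symm
      _ ≤ _ := ENNReal.rpow_le_rpow h6 (by positivity)

lemma limsup_upper {a : ℕ → ℕ} {l l' C : ℝ} (hl : 0 < l) (hll : l < l')
    (h : ∀ n, (a n : ℝ) ≤ C * l ^ n) :
    Filter.limsup (fun n : ℕ => ((a n : ENNReal)) ^ ((1 : ℝ) / n))
      Filter.atTop ≤ ENNReal.ofReal l' := by
  apply Filter.limsup_le_of_le
  · exact Filter.isCobounded_le_of_bot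
  · have h1 : Filter.Tendsto (fun n : ℕ => (l' / l) ^ n) Filter.atTop Filter.atTop :=
      tendsto_pow_atTop_atTop_of_one_lt ((one_lt_div hl).2 hll)
    filter_upwards [h1.eventually_ge_atTop C, Filter.eventually_ge_atTop 1] with n h2 h4
    have h5 : (a n : ℝ) ≤ l' ^ n := by
      refine le_trans (h n) ?_
      rw [div_pow, le_div_iff₀ (by positivity)] at h2
      exact h2
    have h6 : (a n : ENNReal) ≤ (ENNReal.ofReal l') ^ n := by
      rw [← ENNReal.ofReal_pow (by linarith), ← ENNReal.ofReal_natCast]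
      exact ENNReal.ofReal_le_ofReal h5
    calc _ ≤ ((ENNReal.ofReal l') ^ n) ^ ((1 : ℝ) / n) :=
          ENNReal.rpow_le_rpow h6 (by positivity)
      _ = _ := rpow_pow_cancel (by omega)

/-- main comparison -/
lemma main7 (T : Tri G F 6) (hfin : {v : V | (G.neighborSet v).ncard = 6}.Finite) (o : V) :
    Filter.limsup (fun n : ℕ =>
        ((Set.ncard {q : (Σ w : ℤ × ℤ, G6.Walk ((0, 0) : ℤ × ℤ) w) |
          q.2.IsPath ∧ q.2.length = n} : ENNReal)) ^ ((1 : ℝ) / n)) Filter.atTop
      ≤ ENNReal.ofReal 4.661 ∧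
    ENNReal.ofReal 4.669 ≤ Filter.limsup (fun n : ℕ =>
        ((Set.ncard {q : (Σ w : V, G.Walk o w) | q.2.IsPath ∧ q.2.length = n} : ENNReal))
            ^ ((1 : ℝ) / n)) Filter.atTop := by
  constructor
  · exact limsup_upper (l := 4.66) (C := 2) (by norm_num) (by norm_num) tri_upper
  · obtain ⟨M, hM⟩ : ∃ M, ∀ v ∈ hfin.toFinset, G.dist o v ≤ M := by
      refine ⟨hfin.toFinset.sup (fun v => G.dist o v), fun v hv => ?_⟩
      exact Finset.le_sup (f := fun v => G.dist o v) hv
    obtain ⟨C, hC, h⟩ := growth7 T le_rfl o (n0 := M + 1) (by omega) (by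
      intro v hv
      have h1 := card_nb T v
      have h2 : (nb T v).card ≠ 6 := by
        intro h3
        have h4 : v ∈ hfin.toFinset := by
          rw [Set.Finite.mem_toFinset, Set.mem_ofPred_eq, Set.ncard_eq_toFinset_card _ (T.deg v).1]
          exact h3
        have := hM v h4
        omega
      omega)
    exact limsup_lower (l := 4.67) (by norm_num) (by norm_num) hC h

lemma main6 (T : Tri G F 6) (o : V) :
    ENNReal.ofReal (1 + Real.sqrt 5) ≤ Filter.limsup (fun n : ℕ =>
        ((Set.ncard {q : (Σ w : V, G.Walk o w) | q.2.IsPath ∧ q.2.length = n} : ENNReal))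
            ^ ((1 : ℝ) / n)) Filter.atTop := by
  obtain ⟨C, hC, h⟩ := growth6 T le_rfl o
  apply le_of_forall_lt
  intro c hc
  obtain ⟨e, he1, he2⟩ := exists_between hc
  refine lt_of_lt_of_le he1 ?_
  have hee : e ≠ ⊤ := ne_top_of_lt he2
  have h1 : e = ENNReal.ofReal e.toReal := (ENNReal.ofReal_toReal hee).symm
  have h2 : 0 < e.toReal := ENNReal.toReal_pos (ne_of_gt (lt_of_le_of_lt bot_le he1)) hee
  have h3 : e.toReal < 1 + Real.sqrt 5 := by
    rw [h1] at he2
    exact (ENNReal.ofReal_lt_ofReal_iff_of_nonneg h2.le).1 he2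
  rw [h1]
  exact limsup_lower h2 h3 hC h

end Pool.Agent.H90.TR
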