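import Pool.Agent.H90.TR.Fin

set_option autoImplicit false

open Classical

namespace Pool.Agent.H90.TR

variable {V : Type} {G : SimpleGraph V} {F : Set (Finset V)} {d : ℕ}

lemma child_sib (T : Tri G F d) (hd : 6 ≤ d) {o v c : V} (hc : c ∈ chl T o v) :
    ∃ s ∈ sib T o c, s ∈ chl T o v := by
  have hc' := (mem_chl T).1 hc
  have hvp : v ∈ par T o c := (mem_par T).2 ⟨hc'.1.symm, by omega⟩
  obtain ⟨e1, e2, hne, h1, h2, _⟩ := two_lk T hc'.1.symm
  have hcard := (shape T hd (o := o) (x := c) (by omega)).1
  have key : ∀ e, Lk F c v e → e ∉ par T o c → e ∈ sib T o c ∧ e ∈ chl T o v := by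
    intro e he hep
    have h3 := lk_of_par T hvp he hep
    refine ⟨h3, ?_⟩
    rw [mem_sib T] at h3
    rw [mem_chl T]
    exact ⟨(Lk.adj T he).2.2, by omega⟩
  by_cases q1 : e1 ∈ par T o c
  · by_cases q2 : e2 ∈ par T o c
    · exfalso
      have := le_card3 hvp q1 q2 h1.1 h2.1 hne
      omega
    · exact ⟨e2, key e2 h2 q2⟩
  · exact ⟨e1, key e1 h1 q1⟩

/-- the correction of the potential by the degree -/
noncomputable def cor (T : Tri G F d) (v : V) : ℝ :=
  if 8 ≤ (nb T v).card then 0.19 else if (nb T v).card = 7 then 0 else -0.08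

noncomputable def wt (T : Tri G F d) (o v : V) : ℝ := pot T o 1.272 1 v + cor T v

lemma cor_sum (T : Tri G F d) (hd : 6 ≤ d) {o v : V}
    (h : ∀ c ∈ chl T o v, (nb T c).card = 6 → ∀ u, G.Adj c u → 8 ≤ (nb T u).card) :
    0 ≤ ∑ c ∈ chl T o v, cor T c := by
  let n6 := (chl T o v).filter (fun c => (nb T c).card = 6)
  let n8 := (chl T o v).filter (fun c => 8 ≤ (nb T c).card)
  have hle : n6.card ≤ 2 * n8.card := by
    have hex : ∀ c ∈ n6, ∃ s ∈ sib T o c, s ∈ chl T o v :=
      fun c hc => child_sib T hd (Finset.mem_filter.1 hc).1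
    choose! g hg1 hg2 using hex
    apply Finset.card_le_mul_card_image_of_maps_to (f := g)
    · intro c hc
      have hc' := Finset.mem_filter.1 hc
      have h1 := (mem_sib T).1 (hg1 c hc)
      exact Finset.mem_filter.2 ⟨hg2 c hc, h c hc'.1 hc'.2 _ h1.1⟩
    · intro s hs
      have hs' := (mem_chl T).1 (Finset.mem_filter.1 hs).1
      have h2 := (shape T hd (o := o) (x := s) (by omega)).2
      rw [← h2]
      apply Finset.card_le_card
      intro c hc
      rw [Finset.mem_filter] at hc
      have h1 := (mem_sib T).1 (hg1 c hc.1)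
      rw [hc.2] at h1
      exact (mem_sib T).2 ⟨h1.1.symm, h1.2.symm⟩
  have e : ∑ c ∈ chl T o v, cor T c = 0.19 * (n8.card : ℝ) - 0.08 * (n6.card : ℝ) := by
    have e1 : ∀ c ∈ chl T o v, cor T c =
        0.19 * (if 8 ≤ (nb T c).card then (1 : ℝ) else 0)
          - 0.08 * (if (nb T c).card = 6 then (1 : ℝ) else 0) := by
      intro c _
      have h6 := card_nb T c
      unfold cor
      by_cases a1 : 8 ≤ (nb T c).card
      · have a2 : ¬ (nb T c).card = 6 := by omega
        simp [a1, a2]
      · by_cases a2 : (nb T c).card = 7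
        · have a3 : ¬ (nb T c).card = 6 := by omega
          simp [a1, a2]
        · have a3 : (nb T c).card = 6 := by omega
          simp [a3]
    rw [Finset.sum_congr rfl e1, Finset.sum_sub_distrib, ← Finset.mul_sum, ← Finset.mul_sum,
      Finset.sum_boole, Finset.sum_boole]
  rw [e]
  have : (n6.card : ℝ) ≤ 2 * n8.card := by exact_mod_cast hle
  have h8 : (0 : ℝ) ≤ n8.card := Nat.cast_nonneg _
  linarith

lemma growth8 (T : Tri G F d) (hd : 6 ≤ d) (o : V) {n0 : ℕ} (hn0 : 1 ≤ n0)
    (h8 : ∀ v, n0 ≤ G.dist o v → (nb T v).card = 6 → ∀ u, G.Adj v u → 8 ≤ (nb T u).card) :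
    ∃ C : ℝ, 0 < C ∧ ∀ n : ℕ, n0 ≤ n → C * (4.67 : ℝ) ^ n ≤
      (Set.ncard {q : (Σ w : V, G.Walk o w) | q.2.IsPath ∧ q.2.length = n} : ℝ) := by
  have hpot : ∀ v, pot T o 1.272 1 v ≤ 1.272 ∧ 1 ≤ pot T o 1.272 1 v := by
    intro v; unfold pot; split_ifs <;> norm_num
  have hcor : ∀ v, cor T v ≤ 0.19 ∧ -0.08 ≤ cor T v := by
    intro v; unfold cor; split_ifs <;> norm_num
  apply paths_growth T hd o (l := 4.67) (κ := 1 / 7) (by norm_num) (by norm_num)
    (w := wt T o)
  · intro v; unfold wt; linarith [(hpot v).2, (hcor v).2]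
  · intro v; unfold wt; linarith [(hpot v).1, (hcor v).1]
  · intro v; unfold wt; linarith [(hpot v).1, (hcor v).1]
  · intro v hv
    -- sums over children, vertices of degree at least `k ≥ 7`
    have hS : ∀ s, n0 ≤ G.dist o s → ∀ k : ℕ, k ≤ (nb T s).card →
        1.272 * ((k : ℝ) - (par T o s).card - 4) + 2 ≤ ∑ c ∈ chl T o s, wt T o c := by
      intro s hs k hk
      have h1 := S_lower T hd o (α := 1.272) (β := 1) (by norm_num) (by norm_num) (v := s)
        (by omega) hk
      have h2 := cor_sum T hd (o := o) (v := s) (by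
        intro c hc h6
        have := (mem_chl T).1 hc
        exact h8 c (by omega) h6)
      unfold wt
      rw [Finset.sum_add_distrib]
      linarith
    -- sums over children of a vertex of degree `6`
    have hS6 : ∀ s, n0 ≤ G.dist o s → (nb T s).card = 6 →
        1.272 * ((2 : ℝ) - (par T o s).card) + 2 + 0.19 * (4 - (par T o s).card) ≤
          ∑ c ∈ chl T o s, wt T o c := by
      intro s hs h6
      have h1 := S_lower T hd o (α := 1.272) (β := 1) (by norm_num) (by norm_num) (v := s)
        (by omega) (k := 6) (by omega)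
      have h2 : ∑ c ∈ chl T o s, cor T c = 0.19 * ((chl T o s).card : ℝ) := by
        rw [Finset.sum_congr rfl (g := fun _ => (0.19 : ℝ)), Finset.sum_const, nsmul_eq_mul,
          mul_comm]
        intro c hc
        have h3 := (mem_chl T).1 hc
        have h4 := h8 s hs h6 c h3.1
        unfold cor; rw [if_pos h4]
      have h3 := card_split' T o s
      have h4 := (shape T hd (o := o) (x := s) (by omega)).2
      rw [h6, h4] at h3
      have h5 : (4 : ℝ) ≤ (par T o s).card + (chl T o s).card := by
        have : 4 ≤ (par T o s).card + (chl T o s).card := by omega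
        exact_mod_cast this
      unfold wt
      rw [Finset.sum_add_distrib, h2]
      push_cast at h1
      linarith
    have hsib : ∀ m : ℝ, (∀ s ∈ sib T o v, m ≤ ∑ c ∈ chl T o s, wt T o c) →
        m * 2 ≤ ∑ s ∈ sib T o v, ∑ c ∈ chl T o s, wt T o c := by
      intro m hm
      have e1 : m * 2 = ∑ s ∈ sib T o v, m := by
        rw [Finset.sum_const, (shape T hd (o := o) (x := v) (by omega)).2, nsmul_eq_mul]
        push_cast; ring
      rw [e1]
      exact Finset.sum_le_sum hm
    have hpv := (shape T hd (o := o) (x := v) (by omega)).1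
    have hd6 := card_nb T v
    by_cases c8 : 8 ≤ (nb T v).card
    · -- degree at least 8
      have h1 := hS v hv 8 c8
      have h2 := hsib 2.38 (by
        intro s hs
        have hs' := (mem_sib T).1 hs
        have hps := (shape T hd (o := o) (x := s) (by omega)).1
        have hds := card_nb T s
        by_cases c6 : (nb T s).card = 6
        · have := hS6 s (by omega) c6
          rcases hps with hps | hps <;> rw [hps] at this <;> push_cast at this <;> linarith
        · have := hS s (by omega) 7 (by omega)
          rcases hps with hps | hps <;> rw [hps] at this <;> push_cast at this <;> linarith)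
      have hcv : cor T v = 0.19 := by unfold cor; rw [if_pos c8]
      rcases hpv with hpv | hpv
      · have e : pot T o 1.272 1 v = 1.272 := by unfold pot; rw [if_pos hpv]
        rw [hpv] at h1; unfold wt at h1 h2 ⊢; rw [e, hcv]; push_cast at h1
        nlinarith
      · have e : pot T o 1.272 1 v = 1 := by unfold pot; rw [if_neg (by omega)]
        rw [hpv] at h1; unfold wt at h1 h2 ⊢; rw [e, hcv]; push_cast at h1
        nlinarith
    · by_cases c7 : (nb T v).card = 7
      · -- degree 7: no neighbour of degree 6
        have h1 := hS v hv 7 (by omega)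
        have h2 := hsib 3.272 (by
          intro s hs
          have hs' := (mem_sib T).1 hs
          have hps := (shape T hd (o := o) (x := s) (by omega)).1
          have hds := card_nb T s
          have c6 : (nb T s).card ≠ 6 := by
            intro c6
            have := h8 s (by omega) c6 v hs'.1.symm
            omega
          have := hS s (by omega) 7 (by omega)
          rcases hps with hps | hps <;> rw [hps] at this <;> push_cast at this <;> linarith)
        have hcv : cor T v = 0 := by unfold cor; rw [if_neg c8, if_pos c7]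
        rcases hpv with hpv | hpv
        · have e : pot T o 1.272 1 v = 1.272 := by unfold pot; rw [if_pos hpv]
          rw [hpv] at h1; unfold wt at h1 h2 ⊢; rw [e, hcv]; push_cast at h1
          nlinarith
        · have e : pot T o 1.272 1 v = 1 := by unfold pot; rw [if_neg (by omega)]
          rw [hpv] at h1; unfold wt at h1 h2 ⊢; rw [e, hcv]; push_cast at h1
          nlinarith
      · -- degree 6
        have c6 : (nb T v).card = 6 := by omega
        have h1 := hS6 v hv c6
        have h2 := hsib 4.544 (by
          intro s hs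
          have hs' := (mem_sib T).1 hs
          have hps := (shape T hd (o := o) (x := s) (by omega)).1
          have c8s := h8 v hv c6 s hs'.1
          have := hS s (by omega) 8 c8s
          rcases hps with hps | hps <;> rw [hps] at this <;> push_cast at this <;> linarith)
        have hcv : cor T v = -0.08 := by unfold cor; rw [if_neg c8, if_neg c7]
        rcases hpv with hpv | hpv
        · have e : pot T o 1.272 1 v = 1.272 := by unfold pot; rw [if_pos hpv]
          rw [hpv] at h1; unfold wt at h1 h2 ⊢; rw [e, hcv]; push_cast at h1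
          nlinarith
        · have e : pot T o 1.272 1 v = 1 := by unfold pot; rw [if_neg (by omega)]
          rw [hpv] at h1; unfold wt at h1 h2 ⊢; rw [e, hcv]; push_cast at h1
          nlinarith

lemma main8 (T : Tri G F 6)
    (hfin : {v : V | (G.neighborSet v).ncard = 6 ∧
      ∃ u, G.Adj v u ∧ (G.neighborSet u).ncard ≤ 7}.Finite) (o : V) :
    Filter.limsup (fun n : ℕ =>
        ((Set.ncard {q : (Σ w : ℤ × ℤ, G6.Walk ((0, 0) : ℤ × ℤ) w) |
          q.2.IsPath ∧ q.2.length = n} : ENNReal)) ^ ((1 : ℝ) / n)) Filter.atTop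
      ≤ ENNReal.ofReal 4.661 ∧
    ENNReal.ofReal 4.669 ≤ Filter.limsup (fun n : ℕ =>
        ((Set.ncard {q : (Σ w : V, G.Walk o w) | q.2.IsPath ∧ q.2.length = n} : ENNReal))
            ^ ((1 : ℝ) / n)) Filter.atTop := by
  have hnb : ∀ v, (nb T v).card = (G.neighborSet v).ncard := by
    intro v; unfold nb; rw [Set.ncard_eq_toFinset_card _ (T.deg v).1]
  constructor
  · exact limsup_upper (l := 4.66) (C := 2) (by norm_num) (by norm_num) tri_upper
  · obtain ⟨M, hM⟩ : ∃ M, ∀ v ∈ hfin.toFinset, G.dist o v ≤ M := by
      refine ⟨hfin.toFinset.sup (fun v => G.dist o v), fun v hv => ?_⟩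
      exact Finset.le_sup (f := fun v => G.dist o v) hv
    obtain ⟨C, hC, h⟩ := growth8 T le_rfl o (n0 := M + 1) (by omega) (by
      intro v hv h6 u hvu
      by_contra hcon
      have h4 : v ∈ hfin.toFinset := by
        rw [Set.Finite.mem_toFinset]
        refine ⟨by rw [← hnb]; exact h6, u, hvu, by rw [← hnb]; omega⟩
      have := hM v h4
      omega)
    exact limsup_lower (l := 4.67) (by norm_num) (by norm_num) hC h

end Pool.Agent.H90.TR
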