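import Pool.Agent.H90.TR.Cyc

set_option autoImplicit false

open Classical

namespace Pool.Agent.H90.TR

variable {V : Type} {G : SimpleGraph V} {F : Set (Finset V)} {d : ℕ} {N : ℕ} {c : ℕ → V}

noncomputable def fe (f : Finset V) : Finset (Sym2 V) := f.offDiag.image Sym2.mk.uncurry

lemma mem_fe {f : Finset V} {x y : V} : s(x, y) ∈ fe f ↔ x ≠ y ∧ x ∈ f ∧ y ∈ f := by
  unfold fe
  simp only [Finset.mem_image, Finset.mem_offDiag, Prod.exists, Function.uncurry_apply_pair,
    Sym2.eq_iff]
  constructor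
  · rintro ⟨a, b, ⟨h1, h2, h3⟩, h | h⟩
    · obtain ⟨rfl, rfl⟩ := h; exact ⟨h3, h1, h2⟩
    · obtain ⟨rfl, rfl⟩ := h; exact ⟨h3.symm, h2, h1⟩
  · rintro ⟨h1, h2, h3⟩
    exact ⟨x, y, ⟨h2, h3, h1⟩, Or.inl ⟨rfl, rfl⟩⟩

lemma card_fe {f : Finset V} (h : f.card = 3) : (fe f).card = 3 := by
  unfold fe
  rw [Sym2.card_image_offDiag, h]; rfl

noncomputable def ED (D : Finset (Finset V)) : Finset (Sym2 V) := D.biUnion fe
noncomputable def VD (D : Finset (Finset V)) : Finset V := D.biUnion id

lemma mem_VD {D : Finset (Finset V)} {v : V} : v ∈ VD D ↔ ∃ f ∈ D, v ∈ f := by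
  unfold VD; simp

lemma mem_ED (T : Tri G F d) {D : Finset (Finset V)} (hD : ∀ f ∈ D, f ∈ F) {x y : V} :
    s(x, y) ∈ ED D ↔ G.Adj x y ∧ cnt D x y ≠ 0 := by
  unfold ED
  simp only [Finset.mem_biUnion, mem_fe]
  constructor
  · rintro ⟨f, hf, h1, h2, h3⟩
    refine ⟨(T.face f (hD f hf)).2 x h2 y h3 h1, ?_⟩
    have := one_le_cnt hf h2 h3
    omega
  · rintro ⟨h1, h2⟩
    obtain ⟨f, hf, hx, hy⟩ := exists_of_cnt h2
    exact ⟨f, hf, h1.ne, hx, hy⟩

lemma two_endpoints {W : Finset V} {x y : V} (hxy : x ≠ y) (hx : x ∈ W) (hy : y ∈ W) :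
    (W.filter (fun v => v ∈ s(x, y))).card = 2 := by
  have : W.filter (fun v => v ∈ s(x, y)) = {x, y} := by
    ext v
    simp only [Finset.mem_filter, Sym2.mem_iff, Finset.mem_insert, Finset.mem_singleton]
    constructor
    · exact fun h => h.2
    · rintro (rfl | rfl)
      · exact ⟨hx, Or.inl rfl⟩
      · exact ⟨hy, Or.inr rfl⟩
  rw [this, Finset.card_pair hxy]

lemma zmod2 (a : ZMod 2) : a = 0 ∨ a = 1 := by
  fin_cases a
  · left; rfl
  · right; rfl

lemma dim (T : Tri G F d) (hc : Cyc G N c) {D : Finset (Finset V)} (hD : Inside G F N c D)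
    (hne : (VD D).Nonempty) :
    (ED D).card + 1 ≤ (VD D).card + D.card := by
  let A : Matrix (VD D) (ED D) (ZMod 2) := fun v e => if (v : V) ∈ (e : Sym2 V) then 1 else 0
  let B : Matrix (ED D) D (ZMod 2) :=
    fun e f => if (e : Sym2 V) ∈ fe (f : Finset V) then 1 else 0
  have hker : LinearMap.ker A.mulVecLin ≤ LinearMap.range B.mulVecLin := by
    intro z hz
    rw [LinearMap.mem_ker, Matrix.mulVecLin_apply] at hz
    let Z : Finset (Sym2 V) :=
      ((Finset.univ : Finset (ED D)).filter (fun e : ED D => z e = 1)).map (Function.Embedding.subtype _)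
    have hZ : ∀ e : ED D, (e : Sym2 V) ∈ Z ↔ z e = 1 := by
      intro e
      simp [Z]
    have hZ' : ∀ e ∈ Z, e ∈ ED D := by
      intro e he
      simp only [Z, Finset.mem_map, Function.Embedding.subtype_apply] at he
      obtain ⟨e', _, rfl⟩ := he
      exact e'.2
    obtain ⟨S, hS, h⟩ := fill T hc hD Z (by
      intro x y hxy
      exact (mem_ED T hD.1).1 (hZ' _ hxy)) (by
      intro v
      by_cases hv : v ∈ VD D
      · have h1 := congrFun hz ⟨v, hv⟩
        simp only [Matrix.mulVec, dotProduct, Pi.zero_apply, A] at h1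
        have h2 : (((Finset.univ : Finset (ED D)).filter
            (fun e : ED D => v ∈ (e : Sym2 V) ∧ z e = 1)).card : ZMod 2) = 0 := by
          rw [← h1, Finset.card_filter]
          push_cast
          apply Finset.sum_congr rfl
          intro e _
          rcases zmod2 (z e) with hze | hze
          · by_cases hve : v ∈ (e : Sym2 V) <;> simp [hve, hze]
          · by_cases hve : v ∈ (e : Sym2 V) <;> simp [hve, hze]
        rw [ZMod.natCast_eq_zero_iff_even] at h2
        have h3 : {e : Sym2 V | e ∈ Z ∧ v ∈ e}.ncard = ((Finset.univ : Finset (ED D)).filter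
            (fun e : ED D => v ∈ (e : Sym2 V) ∧ z e = 1)).card := by
          rw [← Finset.card_map (Function.Embedding.subtype _), ← Set.ncard_coe_finset]
          congr 1
          ext e
          simp only [Set.mem_ofPred_eq, Finset.coe_map, Set.mem_image, Finset.coe_filter,
            Finset.mem_univ, true_and, Function.Embedding.subtype_apply]
          constructor
          · rintro ⟨h4, h5⟩
            exact ⟨⟨e, hZ' e h4⟩, ⟨h5, (hZ ⟨e, hZ' e h4⟩).1 h4⟩, rfl⟩
          · rintro ⟨e', ⟨h4, h5⟩, rfl⟩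
            exact ⟨(hZ e').2 h5, h4⟩
        rw [h3]; exact h2
      · have h3 : {e : Sym2 V | e ∈ Z ∧ v ∈ e} = ∅ := by
          ext e
          simp only [Set.mem_ofPred_eq, Set.mem_empty_iff_false, iff_false]
          rintro ⟨h4, h5⟩
          apply hv
          rw [Sym2.mem_iff_exists] at h5
          obtain ⟨a, rfl⟩ := h5
          have := (mem_ED T hD.1).1 (hZ' _ h4)
          obtain ⟨f, hf, hx, hy⟩ := exists_of_cnt this.2
          exact mem_VD.2 ⟨f, hf, hx⟩
        rw [h3]; simp)
    refine ⟨fun f => if (f : Finset V) ∈ S then 1 else 0, ?_⟩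
    rw [Matrix.mulVecLin_apply]
    ext ⟨e, he⟩
    induction e with
    | _ x y =>
    have hxy := (mem_ED T hD.1).1 he
    simp only [Matrix.mulVec, dotProduct, B]
    have h2 : (∑ f : D, (if s(x, y) ∈ fe (f : Finset V) then (1 : ZMod 2) else 0) *
        (if (f : Finset V) ∈ S then 1 else 0)) = ((cnt S x y : ℕ) : ZMod 2) := by
      have h4 : cnt S x y = ((Finset.univ : Finset D).filter
          (fun f : D => s(x, y) ∈ fe (f : Finset V) ∧ (f : Finset V) ∈ S)).card := by
        unfold cnt
        rw [← Finset.card_map (Function.Embedding.subtype _)]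
        congr 1
        ext f
        simp only [Finset.mem_filter, Finset.mem_map, Finset.mem_univ, true_and,
          Function.Embedding.subtype_apply, mem_fe]
        constructor
        · rintro ⟨h5, h6, h7⟩
          exact ⟨⟨f, hS h5⟩, ⟨⟨hxy.1.ne, h6, h7⟩, h5⟩, rfl⟩
        · rintro ⟨f', ⟨⟨_, h6, h7⟩, h5⟩, rfl⟩
          exact ⟨h5, h6, h7⟩
      rw [h4, Finset.card_filter]
      push_cast
      apply Finset.sum_congr rfl
      intro f _
      by_cases h5 : s(x, y) ∈ fe (f : Finset V) <;> by_cases h6 : (f : Finset V) ∈ S <;>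
        simp [h5, h6]
    rw [h2]
    rcases zmod2 (z ⟨s(x, y), he⟩) with hze | hze
    · rw [hze, ZMod.natCast_eq_zero_iff_even, ← Nat.not_odd_iff_even, ← h x y hxy.1]
      intro hm
      have := (hZ ⟨s(x, y), he⟩).1 hm
      rw [hze] at this
      exact absurd this (by decide)
    · rw [hze, ZMod.natCast_eq_one_iff_odd, ← h x y hxy.1]
      exact (hZ ⟨s(x, y), he⟩).2 hze
  let σ : (VD D → ZMod 2) →ₗ[ZMod 2] ZMod 2 := ∑ v : VD D, LinearMap.proj v
  have hσ : ∀ z, σ z = ∑ v : VD D, z v := by
    intro z; simp [σ, LinearMap.sum_apply]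
  have hrange : LinearMap.range A.mulVecLin ≤ LinearMap.ker σ := by
    rintro _ ⟨z, rfl⟩
    rw [LinearMap.mem_ker, hσ, Matrix.mulVecLin_apply]
    simp only [Matrix.mulVec, dotProduct, A]
    rw [Finset.sum_comm]
    apply Finset.sum_eq_zero
    rintro ⟨e, he⟩ _
    induction e with
    | _ x y =>
    rw [← Finset.sum_mul]
    have hxy := (mem_ED T hD.1).1 he
    obtain ⟨f, hf, hx, hy⟩ := exists_of_cnt hxy.2
    have h1 : (∑ v : VD D, (if (v : V) ∈ s(x, y) then (1 : ZMod 2) else 0)) = 0 := by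
      have h2 := two_endpoints (W := VD D) hxy.1.ne (mem_VD.2 ⟨f, hf, hx⟩) (mem_VD.2 ⟨f, hf, hy⟩)
      have h3 : (∑ v : VD D, (if (v : V) ∈ s(x, y) then (1 : ZMod 2) else 0))
          = (((VD D).filter (fun v => v ∈ s(x, y))).card : ZMod 2) := by
        rw [Finset.card_filter]
        push_cast
        rw [← Finset.sum_coe_sort (VD D) (fun v => if v ∈ s(x, y) then (1 : ZMod 2) else 0)]
      rw [h3, h2]; decide
    show (∑ v : VD D, (if (v : V) ∈ s(x, y) then (1 : ZMod 2) else 0)) * z ⟨s(x, y), he⟩ = 0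
    rw [h1, zero_mul]
  have hsurj : LinearMap.range σ = ⊤ := by
    rw [LinearMap.range_eq_top]
    intro a
    obtain ⟨v, hv⟩ := hne
    refine ⟨fun u => if u = ⟨v, hv⟩ then a else 0, ?_⟩
    rw [hσ]; simp
  have e1 := LinearMap.finrank_range_add_finrank_ker A.mulVecLin
  have e2 := LinearMap.finrank_range_add_finrank_ker σ
  have e3 := Submodule.finrank_mono hker
  have e4 := Submodule.finrank_mono hrange
  have e5 := LinearMap.finrank_range_le B.mulVecLin
  rw [hsurj, finrank_top] at e2
  simp only [Module.finrank_self, Module.finrank_fintype_fun_eq_card, Fintype.card_coe] at e1 e2 e5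
  omega

lemma gb (T : Tri G F d) (hd : 6 ≤ d) (hc : Cyc G N c) {D : Finset (Finset V)}
    (hD : Inside G F N c D) :
    ∑ k ∈ Finset.range N, tt D (c k) + 6 ≤ 3 * N := by
  have h3 := hc.three
  have hface : ∀ f ∈ D, f.card = 3 := fun f hf => (T.face f (hD.1 f hf)).1
  have hes : ∀ x y, s(x, y) ∈ eset N c → G.Adj x y := by
    intro x y hm
    rw [mem_eset] at hm
    obtain ⟨j, hj, he⟩ := hm
    have := hc.adj j hj
    rw [Sym2.eq_iff] at he
    rcases he with ⟨rfl, rfl⟩ | ⟨rfl, rfl⟩
    · exact this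
    · exact this.symm
  have hsubE : eset N c ⊆ ED D := by
    intro e he
    induction e with
    | _ x y =>
    have hxy := hes x y he
    refine (mem_ED T hD.1).2 ⟨hxy, ?_⟩
    have := (hD.2 x y hxy).1 he
    rcases this with ⟨m, hm⟩; omega
  have hWsub : ∀ k < N, c k ∈ VD D := by
    intro k hk
    have h1 : s(c k, c (k + 1)) ∈ ED D := hsubE ((mem_eset _).2 ⟨k, hk, rfl⟩)
    have h2 := (mem_ED T hD.1).1 h1
    obtain ⟨f, hf, hx, hy⟩ := exists_of_cnt h2.2
    exact mem_VD.2 ⟨f, hf, hx⟩
  have hdim := dim T hc hD ⟨c 0, hWsub 0 (by omega)⟩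
  -- edges
  have hE : ∑ e ∈ ED D, (D.filter (fun f => e ∈ fe f)).card = 3 * D.card := by
    have := Finset.sum_card_bipartiteAbove_eq_sum_card_bipartiteBelow
      (s := ED D) (t := D) (fun e f => e ∈ fe f)
    simp only [Finset.bipartiteAbove, Finset.bipartiteBelow] at this
    rw [this, Finset.sum_congr rfl (g := fun _ => 3), Finset.sum_const, smul_eq_mul, mul_comm]
    intro f hf
    rw [← card_fe (hface f hf)]
    congr 1
    ext e
    simp only [Finset.mem_filter, and_iff_right_iff_imp]
    intro he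
    exact Finset.mem_biUnion.2 ⟨f, hf, he⟩
  have hE2 : ∀ e ∈ ED D, (D.filter (fun f => e ∈ fe f)).card
      + (if e ∈ eset N c then 1 else 0) = 2 := by
    intro e he
    induction e with
    | _ x y =>
    have hxy := (mem_ED T hD.1).1 he
    have h4 : (D.filter (fun f => s(x, y) ∈ fe f)).card = cnt D x y := by
      unfold cnt
      congr 1
      ext f
      simp only [Finset.mem_filter, mem_fe]
      constructor
      · rintro ⟨a, b, c⟩; exact ⟨a, c⟩
      · rintro ⟨a, c⟩; exact ⟨a, hxy.1.ne, c⟩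
    rw [h4]
    have h5 := cnt_le_two T hD.1 hxy.1
    have h6 := hxy.2
    have h7 := hD.2 x y hxy.1
    split_ifs with hm
    · rcases h7.1 hm with ⟨m, hm'⟩; omega
    · have : ¬ Odd (cnt D x y) := fun hh => hm (h7.2 hh)
      rw [Nat.not_odd_iff_even] at this
      rcases this with ⟨m, hm'⟩; omega
  have hE3 : 3 * D.card + N = 2 * (ED D).card := by
    have h4 := Finset.sum_congr rfl hE2
    rw [Finset.sum_add_distrib, hE, Finset.sum_const, smul_eq_mul, ← Finset.card_filter] at h4
    have h5 : (ED D).filter (fun e => e ∈ eset N c) = eset N c := by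
      ext e
      simp only [Finset.mem_filter, and_iff_right_iff_imp]
      exact fun he => hsubE he
    rw [h5, card_eset hc] at h4
    omega
  have hV : ∑ v ∈ VD D, tt D v = 3 * D.card := by
    have := Finset.sum_card_bipartiteAbove_eq_sum_card_bipartiteBelow
      (s := VD D) (t := D) (fun v f => v ∈ f)
    simp only [Finset.bipartiteAbove, Finset.bipartiteBelow] at this
    unfold tt
    rw [this, Finset.sum_congr rfl (g := fun _ => 3), Finset.sum_const, smul_eq_mul, mul_comm]
    intro f hf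
    rw [← hface f hf]
    congr 1
    ext v
    simp only [Finset.mem_filter, and_iff_right_iff_imp]
    intro hv
    exact mem_VD.2 ⟨f, hf, hv⟩
  set W0 := (Finset.range N).image c with hW0
  have hinj : Set.InjOn c (Finset.range N : Set ℕ) := by
    intro i hi j hj h
    simp only [Finset.coe_range, Set.mem_Iio] at hi hj
    exact hc.inj i hi j hj h
  have hW0sub : W0 ⊆ VD D := by
    intro v hv
    rw [hW0, Finset.mem_image] at hv
    obtain ⟨k, hk, rfl⟩ := hv
    exact hWsub k (Finset.mem_range.1 hk)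
  have hW0card : W0.card = N := by
    rw [hW0, Finset.card_image_of_injOn hinj, Finset.card_range]
  have hsplit := Finset.sum_sdiff (f := fun v => tt D v) hW0sub
  have hs1 : ∑ v ∈ W0, tt D v = ∑ k ∈ Finset.range N, tt D (c k) := by
    rw [hW0, Finset.sum_image hinj]
  have hs2 : 6 * (VD D \ W0).card ≤ ∑ v ∈ VD D \ W0, tt D v := by
    rw [mul_comm, ← smul_eq_mul, ← Finset.sum_const]
    apply Finset.sum_le_sum
    intro v hv
    rw [Finset.mem_sdiff] at hv
    obtain ⟨f, hf, hvf⟩ := mem_VD.1 hv.1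
    refine le_trans hd (tt_interior T hD.1 hf hvf ?_)
    intro a ha h1
    have h2 : s(v, a) ∈ eset N c := (hD.2 v a ha).2 (by rw [h1]; exact odd_one)
    refine not_mem_eset hc (v := v) ?_ a h2
    intro k hk hkv
    apply hv.2
    rw [hW0, Finset.mem_image]
    exact ⟨k, Finset.mem_range.2 hk, hkv⟩
  have hcard : (VD D \ W0).card + W0.card = (VD D).card := Finset.card_sdiff_add_card_eq_card hW0sub
  omega

end Pool.Agent.H90.TR
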