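import Mathlib

set_option autoImplicit false

open Classical

namespace Pool.Agent.H90.TR

variable {V : Type} {G : SimpleGraph V}

lemma sum_ncard_le {ι α : Type} (I : Finset ι) (X : ι → Set α) (Y : Set α) (hY : Y.Finite)
    (hX : ∀ i ∈ I, X i ⊆ Y) (key : α → ι) (hk : ∀ i ∈ I, ∀ x ∈ X i, key x = i) :
    ∑ i ∈ I, (X i).ncard ≤ Y.ncard := by
  rw [Set.ncard_eq_toFinset_card Y hY]
  calc ∑ i ∈ I, (X i).ncard ≤ ∑ i ∈ I, (hY.toFinset.filter (fun x => key x = i)).card := by
        apply Finset.sum_le_sum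
        intro i hi
        rw [← Set.ncard_coe_finset]
        apply Set.ncard_le_ncard _ (Finset.finite_toSet _)
        intro x hx
        simp only [Finset.coe_filter, Set.Finite.mem_toFinset, Set.mem_ofPred_eq]
        exact ⟨hX i hi hx, hk i hi x hx⟩
    _ = (hY.toFinset.filter (fun x => key x ∈ I)).card :=
        Finset.sum_card_fiberwise_eq_card_filter _ _ _
    _ ≤ _ := Finset.card_filter_le _ _

lemma ncard_le_sum {ι α : Type} (I : Finset ι) (X : ι → Set α) (Y : Set α)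
    (hX : ∀ i ∈ I, (X i).Finite) (hY : Y ⊆ ⋃ i ∈ I, X i) :
    Y.ncard ≤ ∑ i ∈ I, (X i).ncard := by
  let Xf : ι → Finset α := fun i => if h : (X i).Finite then h.toFinset else ∅
  have h1 : Y ⊆ ↑(I.biUnion Xf) := by
    intro y hy
    have := hY hy
    simp only [Set.mem_iUnion] at this
    obtain ⟨i, hi, hyi⟩ := this
    simp only [Finset.coe_biUnion, Set.mem_iUnion]
    refine ⟨i, hi, ?_⟩
    simp only [Xf, hX i hi, dif_pos, Set.Finite.coe_toFinset]
    exact hyi
  calc Y.ncard ≤ (↑(I.biUnion Xf) : Set α).ncard :=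
        Set.ncard_le_ncard h1 (Finset.finite_toSet _)
    _ = (I.biUnion Xf).card := Set.ncard_coe_finset _
    _ ≤ ∑ i ∈ I, (Xf i).card := Finset.card_biUnion_le
    _ = _ := by
        apply Finset.sum_congr rfl
        intro i hi
        simp only [Xf, hX i hi, dif_pos]
        rw [Set.ncard_eq_toFinset_card _ (hX i hi)]

/-- prepend a step to a set of walks -/
def cm (v c : V) (X : Set (Σ w : V, G.Walk c w)) : Set (Σ w : V, G.Walk v w) :=
  {q | ∃ (h : G.Adj v c), ∃ r ∈ X, q = ⟨r.1, SimpleGraph.Walk.cons h r.2⟩}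

lemma cm_eq {v c : V} (h : G.Adj v c) (X : Set (Σ w : V, G.Walk c w)) :
    cm v c X = (fun r : (Σ w : V, G.Walk c w) =>
      (⟨r.1, SimpleGraph.Walk.cons h r.2⟩ : Σ w : V, G.Walk v w)) '' X := by
  ext q
  constructor
  · rintro ⟨h', r, hr, rfl⟩; exact ⟨r, hr, rfl⟩
  · rintro ⟨r, hr, rfl⟩; exact ⟨h, r, hr, rfl⟩

lemma ncard_cm {v c : V} (h : G.Adj v c) (X : Set (Σ w : V, G.Walk c w)) :
    (cm v c X).ncard = X.ncard := by
  rw [cm_eq h]
  apply Set.ncard_image_of_injective
  rintro ⟨a, p⟩ ⟨b, q⟩ hpq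
  simp only [Sigma.mk.injEq] at hpq
  obtain ⟨rfl, h2⟩ := hpq
  simp only [heq_eq_eq, SimpleGraph.Walk.cons.injEq, true_and] at h2
  rw [h2]

lemma cm_fin {v c : V} {X : Set (Σ w : V, G.Walk c w)} (hX : X.Finite) : (cm v c X).Finite := by
  by_cases h : G.Adj v c
  · rw [cm_eq h]; exact hX.image _
  · have : cm v c X = ∅ := by
      ext q; simp only [Set.mem_empty_iff_false, iff_false]
      rintro ⟨h', _⟩; exact h h'
    rw [this]; exact Set.finite_empty

lemma cm_key {v c : V} {X : Set (Σ w : V, G.Walk c w)} {q : Σ w : V, G.Walk v w}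
    (hq : q ∈ cm v c X) : q.2.getVert 1 = c := by
  obtain ⟨h, r, hr, rfl⟩ := hq
  simp

/-- all walks of length `n` -/
def Wn (G : SimpleGraph V) (n : ℕ) (v : V) : Set (Σ w : V, G.Walk v w) := {q | q.2.length = n}

lemma Wn_fin (hfin : ∀ v, (G.neighborSet v).Finite) : ∀ n v, (Wn G n v).Finite := by
  intro n
  induction n with
  | zero =>
    intro v
    apply Set.Finite.subset (Set.finite_singleton (⟨v, SimpleGraph.Walk.nil⟩ : Σ w : V, G.Walk v w))
    rintro ⟨w, q⟩ hq
    cases q with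
    | nil => rfl
    | cons h p => simp [Wn] at hq
  | succ n ih =>
    intro v
    apply Set.Finite.subset (Set.Finite.biUnion (hfin v) (fun c _ => cm_fin (v := v) (ih c)))
    rintro ⟨w, q⟩ hq
    cases q with
    | nil => simp [Wn] at hq
    | @cons _ c _ h p =>
      simp only [Set.mem_iUnion]
      refine ⟨c, h, h, ⟨w, p⟩, ?_, rfl⟩
      simp only [Wn, Set.mem_ofPred_eq, SimpleGraph.Walk.length_cons] at hq ⊢
      omega

end Pool.Agent.H90.TR
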