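import Pool.Agent.H90.TR.Str
import Pool.Agent.H90.TR.Wk

set_option autoImplicit false

open Classical

namespace Pool.Agent.H90.TR

variable {V : Type} {G : SimpleGraph V} {F : Set (Finset V)} {d : ℕ}

/-- paths from `v` that stay at levels at least that of `v` -/
def AA (G : SimpleGraph V) (o : V) (n : ℕ) (v : V) : Set (Σ w : V, G.Walk v w) :=
  {q | q.2.IsPath ∧ q.2.length = n ∧ ∀ u ∈ q.2.support, G.dist o v ≤ G.dist o u}

/-- paths from `v` whose other vertices are at strictly higher levels -/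
def BB (G : SimpleGraph V) (o : V) (n : ℕ) (v : V) : Set (Σ w : V, G.Walk v w) :=
  {q | q.2.IsPath ∧ q.2.length = n ∧ ∀ u ∈ q.2.support, u = v ∨ G.dist o v < G.dist o u}

lemma AA_fin (T : Tri G F d) (o : V) (n : ℕ) (v : V) : (AA G o n v).Finite :=
  (Wn_fin (fun v => (T.deg v).1) n v).subset (fun _ hq => hq.2.1)

lemma BB_fin (T : Tri G F d) (o : V) (n : ℕ) (v : V) : (BB G o n v).Finite :=
  (Wn_fin (fun v => (T.deg v).1) n v).subset (fun _ hq => hq.2.1)

lemma AA_zero (T : Tri G F d) (o : V) (v : V) : 1 ≤ (AA G o 0 v).ncard := by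
  refine (Set.ncard_pos (AA_fin T o 0 v)).2 ⟨⟨v, SimpleGraph.Walk.nil⟩, ?_, ?_, ?_⟩ <;> simp

lemma BB_zero (T : Tri G F d) (o : V) (v : V) : 1 ≤ (BB G o 0 v).ncard := by
  refine (Set.ncard_pos (BB_fin T o 0 v)).2 ⟨⟨v, SimpleGraph.Walk.nil⟩, ?_, ?_, ?_⟩ <;> simp

lemma cm_sub_BB {o v c : V} {n : ℕ} (hc : G.dist o c = G.dist o v + 1) :
    cm v c (AA G o n c) ⊆ BB G o (n + 1) v := by
  rintro _ ⟨h, r, ⟨h1, h2, h3⟩, rfl⟩
  have hv : v ∉ r.2.support := by
    intro hv; have := h3 v hv; omega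
  refine ⟨?_, ?_, ?_⟩
  · rw [SimpleGraph.Walk.cons_isPath_iff]; exact ⟨h1, hv⟩
  · simp [h2]
  · intro u hu
    rw [SimpleGraph.Walk.support_cons, List.mem_cons] at hu
    rcases hu with hu | hu
    · exact Or.inl hu
    · right; have := h3 u hu; omega

lemma BB_succ (T : Tri G F d) (o : V) (n : ℕ) (v : V) :
    ∑ c ∈ chl T o v, (AA G o n c).ncard ≤ (BB G o (n + 1) v).ncard := by
  have := sum_ncard_le (chl T o v) (fun c => cm v c (AA G o n c)) (BB G o (n + 1) v)
    (BB_fin T o _ v) (fun c hc => cm_sub_BB ((mem_chl T).1 hc).2) (fun q => q.2.getVert 1)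
    (fun c _ q hq => cm_key hq)
  refine le_trans (le_of_eq ?_) this
  apply Finset.sum_congr rfl
  intro c hc
  rw [ncard_cm ((mem_chl T).1 hc).1]

lemma AA_succ (T : Tri G F d) (o : V) (n : ℕ) (v : V) :
    (BB G o (n + 1) v).ncard + ∑ s ∈ sib T o v, (BB G o n s).ncard ≤ (AA G o (n + 1) v).ncard := by
  have hsub : BB G o (n + 1) v ⊆ AA G o (n + 1) v := by
    rintro q ⟨h1, h2, h3⟩
    refine ⟨h1, h2, fun u hu => ?_⟩
    rcases h3 u hu with rfl | h
    · exact le_rfl
    · exact h.le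
  have hdiff := Set.ncard_sdiff_add_ncard_of_subset hsub (AA_fin T o (n + 1) v)
  have := sum_ncard_le (sib T o v) (fun s => cm v s (BB G o n s))
    (AA G o (n + 1) v \ BB G o (n + 1) v) ((AA_fin T o (n + 1) v).subset Set.sdiff_subset) (by
      intro s hs
      rw [mem_sib T] at hs
      rintro _ ⟨h, r, ⟨h1, h2, h3⟩, rfl⟩
      have hv : v ∉ r.2.support := by
        intro hv
        rcases h3 v hv with h4 | h4
        · exact hs.1.ne h4
        · omega
      refine ⟨⟨?_, ?_, ?_⟩, ?_⟩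
      · rw [SimpleGraph.Walk.cons_isPath_iff]; exact ⟨h1, hv⟩
      · simp [h2]
      · intro u hu
        rw [SimpleGraph.Walk.support_cons, List.mem_cons] at hu
        rcases hu with rfl | hu
        · exact le_rfl
        · rcases h3 u hu with rfl | h4
          · omega
          · omega
      · rintro ⟨_, _, h5⟩
        rcases h5 s (by simp) with h6 | h6
        · exact hs.1.ne h6.symm
        · omega) (fun q => q.2.getVert 1) (fun c _ q hq => cm_key hq)
  have h4 : ∑ s ∈ sib T o v, (cm v s (BB G o n s)).ncard = ∑ s ∈ sib T o v, (BB G o n s).ncard := by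
    apply Finset.sum_congr rfl
    intro s hs
    rw [ncard_cm ((mem_sib T).1 hs).1]
  rw [h4] at this
  omega

/-- growth from a local inequality for a potential -/
lemma growth (T : Tri G F d) (o : V) {l κ : ℝ} (hl : 0 < l) (hκ : 0 ≤ κ) {n0 : ℕ} {w : V → ℝ}
    (hw1 : ∀ v, κ * w v ≤ 1) (hw2 : ∀ v, κ * (l * w v) ≤ 1)
    (hch : ∀ v, n0 ≤ G.dist o v → (chl T o v).Nonempty)
    (hloc : ∀ v, n0 ≤ G.dist o v → l ^ 2 * w v ≤ l * ∑ c ∈ chl T o v, w c
      + ∑ s ∈ sib T o v, ∑ c ∈ chl T o s, w c) :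
    ∀ n v, n0 ≤ G.dist o v → κ * (l ^ n * w v) ≤ (AA G o n v).ncard := by
  intro n
  induction n using Nat.twoStepInduction with
  | zero =>
    intro v _
    rw [pow_zero, one_mul]
    have : (1 : ℝ) ≤ (AA G o 0 v).ncard := by exact_mod_cast AA_zero T o v
    linarith [hw1 v]
  | one =>
    intro v hv
    rw [pow_one]
    have h1 : 1 ≤ (AA G o (0 + 1) v).ncard := by
      obtain ⟨c, hc⟩ := hch v hv
      have h2 := BB_succ T o 0 v
      have h3 := AA_succ T o 0 v
      have h4 : (AA G o 0 c).ncard ≤ ∑ c ∈ chl T o v, (AA G o 0 c).ncard :=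
        Finset.single_le_sum (f := fun c => (AA G o 0 c).ncard) (fun _ _ => Nat.zero_le _) hc
      have h5 := AA_zero T o c
      omega
    have : (1 : ℝ) ≤ (AA G o 1 v).ncard := by exact_mod_cast h1
    linarith [hw2 v]
  | more n ih1 ih2 =>
    intro v hv
    have h1 := AA_succ T o (n + 1) v
    have h2 := BB_succ T o (n + 1) v
    have h3 : ∀ s, ∑ c ∈ chl T o s, (AA G o n c).ncard ≤ (BB G o (n + 1) s).ncard :=
      fun s => BB_succ T o n s
    have h4 : ∑ c ∈ chl T o v, (AA G o (n + 1) c).ncard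
        + ∑ s ∈ sib T o v, ∑ c ∈ chl T o s, (AA G o n c).ncard ≤ (AA G o (n + 2) v).ncard := by
      have := Finset.sum_le_sum (fun s (_ : s ∈ sib T o v) => h3 s)
      have e : n + 1 + 1 = n + 2 := rfl
      rw [e] at h1 h2
      omega
    have h5 : (∑ c ∈ chl T o v, ((AA G o (n + 1) c).ncard : ℝ))
        + ∑ s ∈ sib T o v, ∑ c ∈ chl T o s, ((AA G o n c).ncard : ℝ)
        ≤ ((AA G o (n + 2) v).ncard : ℝ) := by exact_mod_cast h4
    refine le_trans ?_ h5
    have h6 : κ * l ^ (n + 1) * ∑ c ∈ chl T o v, w c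
        ≤ ∑ c ∈ chl T o v, ((AA G o (n + 1) c).ncard : ℝ) := by
      rw [Finset.mul_sum]
      apply Finset.sum_le_sum
      intro c hc
      have := ih2 c (by rw [mem_chl T] at hc; omega)
      calc κ * l ^ (n + 1) * w c = κ * (l ^ (n + 1) * w c) := by ring
        _ ≤ _ := this
    have h7 : κ * l ^ n * ∑ s ∈ sib T o v, ∑ c ∈ chl T o s, w c
        ≤ ∑ s ∈ sib T o v, ∑ c ∈ chl T o s, ((AA G o n c).ncard : ℝ) := by
      rw [Finset.mul_sum]
      apply Finset.sum_le_sum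
      intro s hs
      rw [Finset.mul_sum]
      apply Finset.sum_le_sum
      intro c hc
      have := ih1 c (by rw [mem_chl T] at hc; rw [mem_sib T] at hs; omega)
      calc κ * l ^ n * w c = κ * (l ^ n * w c) := by ring
        _ ≤ _ := this
    have h8 := mul_le_mul_of_nonneg_left (hloc v hv) (by positivity : 0 ≤ κ * l ^ n)
    calc κ * (l ^ (n + 2) * w v) = κ * l ^ n * (l ^ 2 * w v) := by ring
      _ ≤ κ * l ^ n * (l * ∑ c ∈ chl T o v, w c + ∑ s ∈ sib T o v, ∑ c ∈ chl T o s, w c) := h8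
      _ = κ * l ^ (n + 1) * ∑ c ∈ chl T o v, w c
          + κ * l ^ n * ∑ s ∈ sib T o v, ∑ c ∈ chl T o s, w c := by ring
      _ ≤ _ := add_le_add h6 h7

lemma chl_nonempty (T : Tri G F d) (hd : 6 ≤ d) (o v : V) : (chl T o v).Nonempty := by
  rw [← Finset.card_pos]
  have h1 := card_split T o v
  by_cases hv : 0 < G.dist o v
  · have := shape T hd hv
    omega
  · have h0 : G.dist o v = 0 := by omega
    have e1 : par T o v = ∅ := by
      ext a; simp only [mem_par T, Finset.notMem_empty, iff_false]; omega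
    have e2 : sib T o v = ∅ := by
      ext a; simp only [mem_sib T, Finset.notMem_empty, iff_false]
      rintro ⟨h2, h3⟩
      rw [h0] at h3
      have e3 := (T.conn.dist_eq_zero_iff).1 h3
      have e4 := (T.conn.dist_eq_zero_iff).1 h0
      exact h2.ne (by rw [← e3, ← e4])
    rw [e1, e2] at h1
    simp at h1
    omega

lemma descend (T : Tri G F d) (hd : 6 ≤ d) (o : V) : ∀ m v, ∃ x, G.dist o x = G.dist o v + m ∧
    ∀ n, (AA G o n x).ncard ≤ (AA G o (n + m) v).ncard := by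
  intro m
  induction m with
  | zero => intro v; exact ⟨v, rfl, fun n => le_rfl⟩
  | succ m ih =>
    intro v
    obtain ⟨c, hc⟩ := chl_nonempty T hd o v
    obtain ⟨x, hx1, hx2⟩ := ih c
    rw [mem_chl T] at hc
    refine ⟨x, by omega, fun n => le_trans (hx2 n) ?_⟩
    have h2 := BB_succ T o (n + m) v
    have h3 := AA_succ T o (n + m) v
    have h4 : (AA G o (n + m) c).ncard ≤ ∑ c ∈ chl T o v, (AA G o (n + m) c).ncard :=
      Finset.single_le_sum (f := fun c => (AA G o (n + m) c).ncard) (fun _ _ => Nat.zero_le _)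
        ((mem_chl T).2 hc)
    have e : n + (m + 1) = n + m + 1 := by omega
    rw [e]
    omega

/-- the number of paths of length `n` from `o` grows at least like `l ^ n` -/
lemma paths_growth (T : Tri G F d) (hd : 6 ≤ d) (o : V) {l κ : ℝ} (hl : 0 < l) (hκ : 0 < κ)
    {n0 : ℕ} {w : V → ℝ} (hw0 : ∀ v, 0 < w v)
    (hw1 : ∀ v, κ * w v ≤ 1) (hw2 : ∀ v, κ * (l * w v) ≤ 1)
    (hloc : ∀ v, n0 ≤ G.dist o v → l ^ 2 * w v ≤ l * ∑ c ∈ chl T o v, w c
      + ∑ s ∈ sib T o v, ∑ c ∈ chl T o s, w c) :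
    ∃ C : ℝ, 0 < C ∧ ∀ n : ℕ, n0 ≤ n → C * l ^ n ≤
      (Set.ncard {q : (Σ w : V, G.Walk o w) | q.2.IsPath ∧ q.2.length = n} : ℝ) := by
  obtain ⟨x, hx1, hx2⟩ := descend T hd o n0 o
  have h0 : G.dist o o = 0 := by simp
  rw [h0, zero_add] at hx1
  refine ⟨κ * w x / l ^ n0, by have := hw0 x; positivity, ?_⟩
  intro n hn
  obtain ⟨k, rfl⟩ := Nat.exists_eq_add_of_le hn
  have h1 := growth T o hl hκ.le hw1 hw2 (fun v _ => chl_nonempty T hd o v) hloc k x (by omega)
  have h2 := hx2 k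
  have h3 : (AA G o (k + n0) o).ncard ≤
      Set.ncard {q : (Σ w : V, G.Walk o w) | q.2.IsPath ∧ q.2.length = n0 + k} := by
    apply Set.ncard_le_ncard
    · rintro q ⟨a, b, c⟩; exact ⟨a, by rw [b]; ring⟩
    · exact (Wn_fin (fun v => (T.deg v).1) (n0 + k) o).subset (fun _ hq => hq.2)
  have h4 : ((AA G o k x).ncard : ℝ) ≤
      (Set.ncard {q : (Σ w : V, G.Walk o w) | q.2.IsPath ∧ q.2.length = n0 + k} : ℝ) := by
    exact_mod_cast le_trans h2 h3
  refine le_trans (le_of_eq ?_) (le_trans h1 h4)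
  rw [pow_add]
  field_simp

end Pool.Agent.H90.TR
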