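import Pool.Agent.H90.TR.GB

set_option autoImplicit false

open Classical

namespace Pool.Agent.H90.TR

variable {V : Type} {G : SimpleGraph V} {F : Set (Finset V)} {d : ℕ} {N : ℕ} {c : ℕ → V}

/-- sum of the levels of the vertices of a face -/
def lam (lev : V → ℕ) (f : Finset V) : ℕ := ∑ a ∈ f, lev a

lemma lam_eq (lev : V → ℕ) {f : Finset V} (hf : f.card = 3) {v a b : V} (hv : v ∈ f)
    (ha : a ∈ f) (hb : b ∈ f) (h1 : v ≠ a) (h2 : v ≠ b) (h3 : a ≠ b) :
    f = {v, a, b} ∧ lam lev f = lev v + lev a + lev b := by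
  have : ({v, a, b} : Finset V) = f := by
    apply Finset.eq_of_subset_of_card_le
    · intro x hx
      simp only [Finset.mem_insert, Finset.mem_singleton] at hx
      rcases hx with rfl | rfl | rfl <;> assumption
    · rw [hf, Finset.card_insert_of_notMem (by simp [h1, h2]), Finset.card_pair h3]
  refine ⟨this.symm, ?_⟩
  unfold lam
  rw [← this, Finset.sum_insert (by simp [h1, h2]), Finset.sum_pair h3]; ring

/-- the third vertex of a face -/
lemma third {f : Finset V} (hf : f.card = 3) {v a : V} (hv : v ∈ f) (ha : a ∈ f)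
    (h1 : v ≠ a) : ∃ b ∈ f, v ≠ b ∧ a ≠ b := by
  have h2 : ((f.erase v).erase a).card = 1 := by
    rw [Finset.card_erase_of_mem (by simp [h1.symm, ha]), Finset.card_erase_of_mem hv, hf]
  obtain ⟨b, hb⟩ := Finset.card_pos.1 (by rw [h2]; norm_num : 0 < ((f.erase v).erase a).card)
  simp only [Finset.mem_erase] at hb
  exact ⟨b, hb.2.2, fun h => hb.2.1 h.symm, fun h => hb.1 h.symm⟩

lemma le_card2 {α : Type} {s : Finset α} {a b : α} (ha : a ∈ s) (hb : b ∈ s) (hab : a ≠ b) :
    2 ≤ s.card := by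
  rw [← Finset.card_pair hab]
  apply Finset.card_le_card
  intro x hx; simp at hx; rcases hx with rfl | rfl <;> assumption

lemma le_card3 {α : Type} {s : Finset α} {a b c : α} (ha : a ∈ s) (hb : b ∈ s) (hc : c ∈ s)
    (hab : a ≠ b) (hac : a ≠ c) (hbc : b ≠ c) : 3 ≤ s.card := by
  have : ({a, b, c} : Finset α).card = 3 := by
    rw [Finset.card_insert_of_notMem (by simp [hab, hac]), Finset.card_pair hbc]
  rw [← this]
  apply Finset.card_le_card
  intro x hx; simp at hx; rcases hx with rfl | rfl | rfl <;> assumption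

lemma le_card4 {α : Type} {s : Finset α} {a b c e : α} (ha : a ∈ s) (hb : b ∈ s) (hc : c ∈ s)
    (he : e ∈ s) (hab : a ≠ b) (hac : a ≠ c) (hae : a ≠ e) (hbc : b ≠ c) (hbe : b ≠ e)
    (hce : c ≠ e) : 4 ≤ s.card := by
  have : ({a, b, c, e} : Finset α).card = 4 := by
    rw [Finset.card_insert_of_notMem (by simp [hab, hac, hae]),
      Finset.card_insert_of_notMem (by simp [hbc, hbe]), Finset.card_pair hce]
  rw [← this]
  apply Finset.card_le_card
  intro x hx; simp at hx; rcases hx with rfl | rfl | rfl | rfl <;> assumption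

lemma side_vertex (T : Tri G F d) {lev : V → ℕ} (hlev : ∀ x y, G.Adj x y → lev x ≤ lev y + 1)
    {D : Finset (Finset V)} (hD : ∀ f ∈ D, f ∈ F) {v u u' : V} (hu : G.Adj v u)
    (hb : ∀ a, G.Adj v a → (Odd (cnt D v a) ↔ a = u ∨ a = u'))
    (h1 : lev u + 1 = lev v) (h2 : lev u' = lev v + 1) {f f' : Finset V} (hf : f ∈ D)
    (hf' : f' ∈ D) (hvf : v ∈ f) (hvf' : v ∈ f') :
    2 + (if lam lev f + 2 = 3 * lev v then 1 else 0) +
      (if lam lev f' = 3 * lev v + 2 then 1 else 0) ≤ tt D v := by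
  have hface := fun g (hg : g ∈ D) => T.face g (hD g hg)
  obtain ⟨f1, hf1, hv1, a, ha, b, hb1, hav, hbv, hab, hQa, hQb⟩ :=
    cross T hD hu hb (fun x => lev x < lev v) (by show lev u < lev v; omega)
      (by show ¬ lev u' < lev v; omega)
  have e1 : lam lev f1 + 1 = 3 * lev v := by
    have := (lam_eq lev (hface f1 hf1).1 hv1 ha hb1 hav.symm hbv.symm hab).2
    have k1 := hlev v a ((hface f1 hf1).2 v hv1 a ha hav.symm)
    have k2 := hlev b a ((hface f1 hf1).2 b hb1 a ha hab.symm)
    omega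
  obtain ⟨f2, hf2, hv2, a2, ha2, b2, hb2, hav2, hbv2, hab2, hQa2, hQb2⟩ :=
    cross T hD hu hb (fun x => lev x ≤ lev v) (by show lev u ≤ lev v; omega)
      (by show ¬ lev u' ≤ lev v; omega)
  have e2 : lam lev f2 = 3 * lev v + 1 := by
    have := (lam_eq lev (hface f2 hf2).1 hv2 ha2 hb2 hav2.symm hbv2.symm hab2).2
    have k1 := hlev b2 v ((hface f2 hf2).2 b2 hb2 v hv2 hbv2)
    have k2 := hlev b2 a2 ((hface f2 hf2).2 b2 hb2 a2 ha2 hab2.symm)
    omega
  have m1 : f1 ∈ D.filter (fun g => v ∈ g) := by simp [hf1, hv1]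
  have m2 : f2 ∈ D.filter (fun g => v ∈ g) := by simp [hf2, hv2]
  have m : f ∈ D.filter (fun g => v ∈ g) := by simp [hf, hvf]
  have m' : f' ∈ D.filter (fun g => v ∈ g) := by simp [hf', hvf']
  have n12 : f1 ≠ f2 := by rintro rfl; omega
  unfold tt
  split_ifs with q1 q2 q2
  · exact le_card4 m1 m2 m m' n12 (by rintro rfl; omega) (by rintro rfl; omega)
      (by rintro rfl; omega) (by rintro rfl; omega) (by rintro rfl; omega)
  · exact le_card3 m1 m2 m n12 (by rintro rfl; omega) (by rintro rfl; omega)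
  · exact le_card3 m1 m2 m' n12 (by rintro rfl; omega) (by rintro rfl; omega)
  · exact le_card2 m1 m2 n12

lemma corner (T : Tri G F d) {lev : V → ℕ} (hlev : ∀ x y, G.Adj x y → lev x ≤ lev y + 1)
    {D : Finset (Finset V)} (hD : ∀ f ∈ D, f ∈ F) {v u u' : V} (hu : G.Adj v u)
    (hb : ∀ a, G.Adj v a → (Odd (cnt D v a) ↔ a = u ∨ a = u'))
    (h1 : lev u + 1 = lev v) (h2 : lev u' = lev v) {f g : Finset V} (hf : f ∈ D)
    (hg : g ∈ D) (hvf : v ∈ f) (hvg : v ∈ g) (hgl : 3 * lev v ≤ lam lev g) :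
    2 + (if lam lev f + 2 = 3 * lev v then 1 else 0) ≤ tt D v := by
  have hface := fun g (hg : g ∈ D) => T.face g (hD g hg)
  obtain ⟨f1, hf1, hv1, a, ha, b, hb1, hav, hbv, hab, hQa, hQb⟩ :=
    cross T hD hu hb (fun x => lev x < lev v) (by show lev u < lev v; omega)
      (by show ¬ lev u' < lev v; omega)
  have e1 : lam lev f1 + 1 = 3 * lev v := by
    have := (lam_eq lev (hface f1 hf1).1 hv1 ha hb1 hav.symm hbv.symm hab).2
    have k1 := hlev v a ((hface f1 hf1).2 v hv1 a ha hav.symm)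
    have k2 := hlev b a ((hface f1 hf1).2 b hb1 a ha hab.symm)
    omega
  have m1 : f1 ∈ D.filter (fun g => v ∈ g) := by simp [hf1, hv1]
  have m : f ∈ D.filter (fun g => v ∈ g) := by simp [hf, hvf]
  have m' : g ∈ D.filter (fun g => v ∈ g) := by simp [hg, hvg]
  unfold tt
  split_ifs with q1
  · exact le_card3 m1 m m' (by rintro rfl; omega) (by rintro rfl; omega) (by rintro rfl; omega)
  · exact le_card2 m1 m' (by rintro rfl; omega)

lemma side (T : Tri G F d) {lev : V → ℕ} (hlev : ∀ x y, G.Adj x y → lev x ≤ lev y + 1)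
    {D : Finset (Finset V)} (hD : ∀ f ∈ D, f ∈ F) {p : ℕ → V} {g : ℕ → Finset V} {m r : ℕ}
    (hl : ∀ j ≤ r, lev (p j) = m + j)
    (hadj : ∀ j < r, G.Adj (p j) (p (j + 1)))
    (hg : ∀ j < r, g j ∈ D ∧ p j ∈ g j ∧ p (j + 1) ∈ g j)
    (hbd : ∀ j, 1 ≤ j → j < r → ∀ a, G.Adj (p j) a →
      (Odd (cnt D (p j) a) ↔ a = p (j - 1) ∨ a = p (j + 1))) :
    ∀ s, s + 1 ≤ r → 3 * s + (if lam lev (g s) = 3 * (m + s) + 2 then 1 else 0) ≤
      ∑ j ∈ Finset.Ico 1 (s + 1), tt D (p j)
        + (if lam lev (g 0) = 3 * m + 2 then 1 else 0) := by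
  intro s
  induction s with
  | zero => intro _; simp
  | succ s ih =>
    intro hs
    have ih' := ih (by omega)
    rw [Finset.sum_Ico_succ_top (by omega)]
    have hb := hbd (s + 1) (by omega) (by omega)
    simp only [Nat.add_sub_cancel] at hb
    have l0 := hl s (by omega)
    have l1 := hl (s + 1) (by omega)
    have l2 := hl (s + 1 + 1) (by omega)
    obtain ⟨g1, g2, g3⟩ := hg s (by omega)
    obtain ⟨g1', g2', g3'⟩ := hg (s + 1) (by omega)
    have hv := side_vertex T hlev hD (hadj s (by omega)).symm hb (by omega) (by omega)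
      g1 g1' g3 g2'
    -- the level sum of `g s`
    have hlam : lam lev (g s) = 3 * (m + s) + 1 ∨ lam lev (g s) = 3 * (m + s) + 2 := by
      have hfc := T.face (g s) (hD _ g1)
      have hne : p s ≠ p (s + 1) := (hadj s (by omega)).ne
      obtain ⟨b, hb1, hb2, hb3⟩ := third hfc.1 g2 g3 hne
      have e := (lam_eq lev hfc.1 g2 g3 hb1 hne hb2 hb3).2
      have k1 := hlev b (p s) (hfc.2 b hb1 _ g2 hb2.symm)
      have k2 := hlev (p (s + 1)) b (hfc.2 _ g3 b hb1 hb3)
      omega
    rw [l1] at hv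
    rcases hlam with hlam | hlam
    · have q1 : lam lev (g s) + 2 = 3 * (m + (s + 1)) := by omega
      have q2 : ¬ lam lev (g s) = 3 * (m + s) + 2 := by omega
      rw [if_pos q1] at hv
      rw [if_neg q2] at ih'
      omega
    · have q1 : ¬ lam lev (g s) + 2 = 3 * (m + (s + 1)) := by omega
      rw [if_neg q1] at hv
      rw [if_pos hlam] at ih'
      omega

/-- the cycle made of two level paths -/
def mk (N r : ℕ) (p q : ℕ → V) : ℕ → V := fun k => if k ≤ r then p k else q (N - k)

lemma mk_cyc {lev : V → ℕ} {p q : ℕ → V} {m r : ℕ} (hr : 1 ≤ r) (hN3 : 3 ≤ N)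
    (hlp : ∀ j ≤ r, lev (p j) = m + j) (hlq : ∀ j ≤ r, lev (q j) = m + j)
    (hap : ∀ j < r, G.Adj (p j) (p (j + 1))) (haq : ∀ j < r, G.Adj (q j) (q (j + 1)))
    (h0 : p 0 = q 0)
    (htop : (N = 2 * r ∧ p r = q r) ∨ (N = 2 * r + 1 ∧ G.Adj (p r) (q r)))
    (hne : ∀ j, 1 ≤ j → j < r → p j ≠ q j) : Cyc G N (mk N r p q) := by
  refine ⟨hN3, ?_, ?_, ?_⟩
  · unfold mk
    rw [if_neg (by omega), if_pos (by omega), Nat.sub_self, h0]
  · intro i hi j hj h
    unfold mk at h
    split_ifs at h with h1 h2 h2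
    · have e1 := hlp i h1
      have e2 := hlp j h2
      rw [h] at e1; omega
    · exfalso
      have e1 := hlp i h1
      have e2 := hlq (N - j) (by omega)
      have e3 : i = N - j := by rw [h] at e1; omega
      rcases htop with ⟨hN, ht⟩ | ⟨hN, ht⟩
      · exact hne i (by omega) (by omega) (by rw [h, e3])
      · by_cases hir : i < r
        · exact hne i (by omega) hir (by rw [h, e3])
        · have : i = r := by omega
          apply ht.ne
          rw [← this, h, e3]
    · exfalso
      have e1 := hlp j h2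
      have e2 := hlq (N - i) (by omega)
      have e3 : j = N - i := by rw [← h] at e1; omega
      rcases htop with ⟨hN, ht⟩ | ⟨hN, ht⟩
      · exact hne j (by omega) (by omega) (by rw [← h, e3])
      · by_cases hir : j < r
        · exact hne j (by omega) hir (by rw [← h, e3])
        · have : j = r := by omega
          apply ht.ne
          rw [← this, ← h, e3]
    · have e1 := hlq (N - i) (by omega)
      have e2 := hlq (N - j) (by omega)
      rw [h] at e1; omega
  · intro i hi
    unfold mk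
    by_cases h1 : i + 1 ≤ r
    · rw [if_pos h1, if_pos (by omega)]
      exact hap i (by omega)
    · rw [if_neg h1]
      by_cases h2 : i ≤ r
      · have hir : i = r := by omega
        rw [if_pos h2, hir]
        rcases htop with ⟨hN, ht⟩ | ⟨hN, ht⟩
        · have e1 : N - (r + 1) = r - 1 := by omega
          rw [e1, ht]
          have := (haq (r - 1) (by omega)).symm
          rwa [Nat.sub_add_cancel hr] at this
        · have e1 : N - (r + 1) = r := by omega
          rw [e1]; exact ht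
      · rw [if_neg h2]
        have := (haq (N - (i + 1)) (by omega)).symm
        have e1 : N - (i + 1) + 1 = N - i := by omega
        rwa [e1] at this

end Pool.Agent.H90.TR
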