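import Pool.Agent.H90.TR.Top

set_option autoImplicit false

open Classical

namespace Pool.Agent.H90.TR

variable {V : Type} {G : SimpleGraph V} {F : Set (Finset V)} {d : ℕ}

lemma lev_le (T : Tri G F d) (o : V) : ∀ x y, G.Adj x y → G.dist o x ≤ G.dist o y + 1 := by
  intro x y h
  have h1 := T.conn.dist_triangle (u := o) (v := y) (w := x)
  have h2 : G.dist y x = 1 := SimpleGraph.dist_eq_one_iff_adj.2 h.symm
  omega

lemma exists_parent (T : Tri G F d) (o : V) {x : V} (hx : 0 < G.dist o x) :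
    ∃ u, G.Adj x u ∧ G.dist o u + 1 = G.dist o x := by
  obtain ⟨w, hw⟩ := T.conn.exists_walk_length_eq_dist x o
  rw [SimpleGraph.dist_comm] at hw
  cases w with
  | nil => simp at hx
  | @cons _ u _ h p =>
    refine ⟨u, h, ?_⟩
    have h1 := SimpleGraph.dist_le p
    rw [SimpleGraph.dist_comm] at h1
    have h2 := lev_le T o x u h
    rw [SimpleGraph.Walk.length_cons] at hw
    omega

lemma geo (T : Tri G F d) (o : V) : ∀ n y, G.dist o y = n → ∃ P : ℕ → V, P n = y ∧
    (∀ j ≤ n, G.dist o (P j) = j) ∧ (∀ j < n, G.Adj (P j) (P (j + 1))) := by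
  intro n
  induction n with
  | zero =>
    intro y hy
    exact ⟨fun _ => y, rfl, fun j hj => by rw [hy]; omega, fun j hj => absurd hj (by omega)⟩
  | succ n ih =>
    intro y hy
    obtain ⟨u, hu, hl⟩ := exists_parent T o (x := y) (by omega)
    obtain ⟨P, h1, h2, h3⟩ := ih u (by omega)
    refine ⟨fun j => if j ≤ n then P j else y, by simp, ?_, ?_⟩
    · intro j hj
      by_cases h : j ≤ n
      · simp only [h, if_true]; exact h2 j h
      · simp only [h, if_false]; omega
    · intro j hj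
      by_cases h : j + 1 ≤ n
      · have h' : j ≤ n := by omega
        simp only [h, h', if_true]; exact h3 j (by omega)
      · have h' : j ≤ n := by omega
        have h'' : j = n := by omega
        simp only [h, h', if_true, if_false]
        rw [h'', h1]; exact hu.symm

lemma meet {P Q : ℕ → V} {n : ℕ} (h0 : P 0 = Q 0) (hne : P n ≠ Q n) :
    ∃ m, m < n ∧ P m = Q m ∧ ∀ j, m < j → j ≤ n → P j ≠ Q j := by
  refine ⟨Nat.findGreatest (fun i => P i = Q i) n, ?_, ?_, ?_⟩
  · rcases lt_or_eq_of_le (Nat.findGreatest_le (P := fun i => P i = Q i) n) with h | h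
    · exact h
    · exfalso
      have := Nat.findGreatest_spec (P := fun i => P i = Q i) (m := 0) (n := n) (by omega) h0
      rw [h] at this
      exact hne this
  · exact Nat.findGreatest_spec (P := fun i => P i = Q i) (m := 0) (n := n) (by omega) h0
  · intro j h1 h2 h3
    have := Nat.le_findGreatest (P := fun i => P i = Q i) h2 h3
    omega

lemma par_face (T : Tri G F d) (hd : 6 ≤ d) (o : V) {x y z : V} (hxy : G.Adj x y)
    (hxz : G.Adj x z) (hy : G.dist o y + 1 = G.dist o x) (hz : G.dist o z + 1 = G.dist o x)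
    (hne : y ≠ z) : ∃ f ∈ F, x ∈ f ∧ y ∈ f ∧ z ∈ f := by
  obtain ⟨P, p1, p2, p3⟩ := geo T o _ y rfl
  obtain ⟨Q, q1, q2, q3⟩ := geo T o _ z rfl
  have hn : G.dist o z = G.dist o y := by omega
  set n := G.dist o y with hndef
  rw [hn] at q1 q2 q3
  have z0 : ∀ v, G.dist o v = 0 → v = o := by
    intro v hv
    exact ((T.conn.dist_eq_zero_iff).1 hv).symm
  obtain ⟨m, m1, m2, m3⟩ := meet (P := P) (Q := Q) (n := n)
    (by rw [z0 _ (p2 0 (by omega)), z0 _ (q2 0 (by omega))]) (by rw [p1, q1]; exact hne)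
  let p : ℕ → V := fun j => if m + j ≤ n then P (m + j) else x
  let q : ℕ → V := fun j => if m + j ≤ n then Q (m + j) else x
  have hb := bigon T hd (lev_le T o) (p := p) (q := q) (m := m) (r := n - m + 1) (by omega)
    (by
      intro j hj
      by_cases h : m + j ≤ n
      · simp only [p, h, if_true]; exact p2 _ h
      · simp only [p, h, if_false]; omega)
    (by
      intro j hj
      by_cases h : m + j ≤ n
      · simp only [q, h, if_true]; exact q2 _ h
      · simp only [q, h, if_false]; omega)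
    (by
      intro j hj
      by_cases h : m + (j + 1) ≤ n
      · have h' : m + j ≤ n := by omega
        simp only [p, h, h', if_true]; exact p3 _ (by omega)
      · have h' : m + j ≤ n := by omega
        have h'' : m + j = n := by omega
        simp only [p, h, h', if_true, if_false]; rw [h'', p1]; exact hxy.symm)
    (by
      intro j hj
      by_cases h : m + (j + 1) ≤ n
      · have h' : m + j ≤ n := by omega
        simp only [q, h, h', if_true]; exact q3 _ (by omega)
      · have h' : m + j ≤ n := by omega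
        have h'' : m + j = n := by omega
        simp only [q, h, h', if_true, if_false]; rw [h'', q1]; exact hxz.symm)
    (by
      have : m + 0 ≤ n := by omega
      simp only [p, q, this, if_true]; exact m2)
    (by
      have : ¬ (m + (n - m + 1) ≤ n) := by omega
      simp only [p, q, this, if_false])
    (by
      intro j h1 h2
      have : m + j ≤ n := by omega
      simp only [p, q, this, if_true]
      exact m3 _ (by omega) this)
  obtain ⟨f, hf, f1, f2, f3⟩ := hb
  have e1 : p (n - m + 1) = x := by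
    have : ¬ (m + (n - m + 1) ≤ n) := by omega
    simp only [p, this, if_false]
  have e2 : p (n - m + 1 - 1) = y := by
    have : m + (n - m + 1 - 1) ≤ n := by omega
    simp only [p, this, if_true]
    rw [show m + (n - m + 1 - 1) = n by omega, p1]
  have e3 : q (n - m + 1 - 1) = z := by
    have : m + (n - m + 1 - 1) ≤ n := by omega
    simp only [q, this, if_true]
    rw [show m + (n - m + 1 - 1) = n by omega, q1]
  rw [e1] at f1; rw [e2] at f2; rw [e3] at f3
  exact ⟨f, hf, f1, f2, f3⟩

lemma sib_face (T : Tri G F d) (hd : 6 ≤ d) (o : V) {x s : V} (hxs : G.Adj x s)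
    (hs : G.dist o s = G.dist o x) :
    ∃ b, G.dist o b + 1 = G.dist o x ∧ ∃ f ∈ F, x ∈ f ∧ s ∈ f ∧ b ∈ f := by
  obtain ⟨P, p1, p2, p3⟩ := geo T o _ x rfl
  obtain ⟨Q, q1, q2, q3⟩ := geo T o _ s rfl
  set n := G.dist o x with hndef
  rw [hs] at q1 q2 q3
  have z0 : ∀ v, G.dist o v = 0 → v = o := by
    intro v hv
    exact ((T.conn.dist_eq_zero_iff).1 hv).symm
  obtain ⟨m, m1, m2, m3⟩ := meet (P := P) (Q := Q) (n := n)
    (by rw [z0 _ (p2 0 (by omega)), z0 _ (q2 0 (by omega))]) (by rw [p1, q1]; exact hxs.ne)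
  obtain ⟨f, hf, f1, f2, b, hb, hbl⟩ := triangle T hd (lev_le T o) (p := fun j => P (m + j))
    (q := fun j => Q (m + j)) (m := m) (r := n - m) (by omega)
    (fun j hj => p2 _ (by omega)) (fun j hj => q2 _ (by omega))
    (fun j hj => p3 _ (by omega)) (fun j hj => q3 _ (by omega)) m2
    (by
      show G.Adj (P (m + (n - m))) (Q (m + (n - m)))
      rw [show m + (n - m) = n by omega, p1, q1]; exact hxs)
    (fun j h1 h2 => m3 _ (by omega) (by omega))
  simp only [show m + (n - m) = n by omega] at f1 f2 hbl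
  rw [p1] at f1; rw [q1] at f2
  exact ⟨b, hbl, f, hf, f1, f2, hb⟩

/-- adjacency in the link of `x` -/
def Lk (F : Set (Finset V)) (x a b : V) : Prop :=
  a ≠ b ∧ a ≠ x ∧ b ≠ x ∧ ∃ f ∈ F, x ∈ f ∧ a ∈ f ∧ b ∈ f

lemma Lk.symm {x a b : V} (h : Lk F x a b) : Lk F x b a := by
  obtain ⟨h1, h2, h3, f, hf, a1, a2, a3⟩ := h
  exact ⟨h1.symm, h3, h2, f, hf, a1, a3, a2⟩

lemma Lk.rot {x a b : V} (h : Lk F x a b) : Lk F a x b := by
  obtain ⟨h1, h2, h3, f, hf, a1, a2, a3⟩ := h
  exact ⟨h3.symm, h2.symm, h1.symm, f, hf, a2, a1, a3⟩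

lemma Lk.adj (T : Tri G F d) {x a b : V} (h : Lk F x a b) :
    G.Adj x a ∧ G.Adj x b ∧ G.Adj a b := by
  obtain ⟨h1, h2, h3, f, hf, a1, a2, a3⟩ := h
  have := (T.face f hf).2
  exact ⟨this x a1 a a2 h2.symm, this x a1 b a3 h3.symm, this a a2 b a3 h1⟩

lemma two_lk (T : Tri G F d) {x a : V} (h : G.Adj x a) :
    ∃ b1 b2, b1 ≠ b2 ∧ Lk F x a b1 ∧ Lk F x a b2 ∧ ∀ b, Lk F x a b → b = b1 ∨ b = b2 := by
  obtain ⟨f1, f2, hne, he⟩ := Set.ncard_eq_two.1 (T.two x a h)
  have m1 : f1 ∈ {f : Finset V | f ∈ F ∧ x ∈ f ∧ a ∈ f} := by rw [he]; simp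
  have m2 : f2 ∈ {f : Finset V | f ∈ F ∧ x ∈ f ∧ a ∈ f} := by rw [he]; simp
  obtain ⟨b1, c1, c2, c3⟩ := third (T.face f1 m1.1).1 m1.2.1 m1.2.2 h.ne
  obtain ⟨b2, e1, e2, e3⟩ := third (T.face f2 m2.1).1 m2.2.1 m2.2.2 h.ne
  have g1 := (lam_eq (fun _ => 0) (T.face f1 m1.1).1 m1.2.1 m1.2.2 c1 h.ne c2 c3).1
  have g2 := (lam_eq (fun _ => 0) (T.face f2 m2.1).1 m2.2.1 m2.2.2 e1 h.ne e2 e3).1
  refine ⟨b1, b2, ?_, ⟨c3, h.ne', c2.symm, f1, m1.1, m1.2.1, m1.2.2, c1⟩,
    ⟨e3, h.ne', e2.symm, f2, m2.1, m2.2.1, m2.2.2, e1⟩, ?_⟩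
  · rintro rfl; exact hne (by rw [g1, g2])
  · rintro b ⟨k1, k2, k3, f, hf, k4, k5, k6⟩
    have : f ∈ {f : Finset V | f ∈ F ∧ x ∈ f ∧ a ∈ f} := ⟨hf, k4, k5⟩
    rw [he] at this
    rcases this with h' | h'
    · left
      rw [h', g1] at k6
      simp only [Finset.mem_insert, Finset.mem_singleton] at k6
      rcases k6 with h | h | h
      · exact absurd h k3
      · exact absurd h k1.symm
      · exact h
    · right
      have h' : f = f2 := h'
      rw [h', g2] at k6
      simp only [Finset.mem_insert, Finset.mem_singleton] at k6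
      rcases k6 with h | h | h
      · exact absurd h k3
      · exact absurd h k1.symm
      · exact h

lemma lk_closed (T : Tri G F d) {x a0 : V} (K : V → Prop) (hK0 : K a0) (h0 : G.Adj x a0)
    (hcl : ∀ a b, K a → Lk F x a b → K b) : ∀ b, G.Adj x b → K b := by
  intro b hb
  have hr := (SimpleGraph.reachable_iff_reflTransGen _ _).1 (T.link x a0 b h0 hb)
  clear hb
  induction hr with
  | refl => exact hK0
  | @tail b c _ hbc ih =>
    rw [SimpleGraph.fromRel_adj] at hbc
    rcases hbc with ⟨hne, h | h⟩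
    · obtain ⟨h1, h2, g, hg, h3, h4, h5⟩ := h
      exact hcl b c ih ⟨hne, h1.symm, h2.symm, g, hg, h3, h4, h5⟩
    · obtain ⟨h1, h2, g, hg, h3, h4, h5⟩ := h
      exact hcl b c ih ⟨hne, h2.symm, h1.symm, g, hg, h3, h5, h4⟩

/-- if two link neighbours are known, they are all of them -/
lemma lk_only (T : Tri G F d) {x a b c : V} (h1 : Lk F x a b) (h2 : Lk F x a c) (hbc : b ≠ c) :
    ∀ e, Lk F x a e → e = b ∨ e = c := by
  obtain ⟨b1, b2, hne, k1, k2, k3⟩ := two_lk T (Lk.adj T h1).1
  intro e he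
  rcases k3 b h1 with rfl | rfl <;> rcases k3 c h2 with rfl | rfl <;>
    rcases k3 e he with h | h <;> simp_all

lemma no_tri (T : Tri G F d) (hd : 6 ≤ d) {x a b c : V} (h1 : Lk F x a b) (h2 : Lk F x b c)
    (h3 : Lk F x a c) : False := by
  have hab := h1.1
  have hbc := h2.1
  have hac := h3.1
  have ka := lk_only T h1 h3 hbc
  have kb := lk_only T h1.symm h2 hac
  have kc := lk_only T h3.symm h2.symm hab
  have hall := lk_closed T (x := x) (a0 := a) (fun v => v = a ∨ v = b ∨ v = c) (Or.inl rfl)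
    (Lk.adj T h1).1 (by
      rintro u v (rfl | rfl | rfl) hv
      · exact Or.inr (ka v hv)
      · rcases kb v hv with h | h
        · exact Or.inl h
        · exact Or.inr (Or.inr h)
      · rcases kc v hv with h | h
        · exact Or.inl h
        · exact Or.inr (Or.inl h))
  have hsub : nb T x ⊆ {a, b, c} := by
    intro v hv
    have := hall v ((mem_nb T).1 hv)
    simpa using this
  have h4 := Finset.card_le_card hsub
  have h5 : ({a, b, c} : Finset V).card ≤ 3 := Finset.card_le_three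
  have h6 := card_nb T x
  omega

noncomputable def par (T : Tri G F d) (o x : V) : Finset V :=
  (nb T x).filter (fun a => G.dist o a + 1 = G.dist o x)
noncomputable def sib (T : Tri G F d) (o x : V) : Finset V :=
  (nb T x).filter (fun a => G.dist o a = G.dist o x)
noncomputable def chl (T : Tri G F d) (o x : V) : Finset V :=
  (nb T x).filter (fun a => G.dist o a = G.dist o x + 1)

lemma mem_par (T : Tri G F d) {o x a : V} : a ∈ par T o x ↔
    G.Adj x a ∧ G.dist o a + 1 = G.dist o x := by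
  unfold par; rw [Finset.mem_filter, mem_nb T]
lemma mem_sib (T : Tri G F d) {o x a : V} : a ∈ sib T o x ↔
    G.Adj x a ∧ G.dist o a = G.dist o x := by
  unfold sib; rw [Finset.mem_filter, mem_nb T]
lemma mem_chl (T : Tri G F d) {o x a : V} : a ∈ chl T o x ↔
    G.Adj x a ∧ G.dist o a = G.dist o x + 1 := by
  unfold chl; rw [Finset.mem_filter, mem_nb T]

lemma card_split (T : Tri G F d) (o x : V) :
    d ≤ (par T o x).card + (sib T o x).card + (chl T o x).card := by
  refine le_trans (card_nb T x) ?_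
  have : nb T x ⊆ par T o x ∪ sib T o x ∪ chl T o x := by
    intro a ha
    rw [mem_nb T] at ha
    have h1 := lev_le T o a x ha.symm
    have h2 := lev_le T o x a ha
    simp only [Finset.mem_union, mem_par T, mem_sib T, mem_chl T]
    have : G.dist o a + 1 = G.dist o x ∨ G.dist o a = G.dist o x ∨
      G.dist o a = G.dist o x + 1 := by omega
    rcases this with h | h | h
    · exact Or.inl (Or.inl ⟨ha, h⟩)
    · exact Or.inl (Or.inr ⟨ha, h⟩)
    · exact Or.inr ⟨ha, h⟩
  refine le_trans (Finset.card_le_card this) (le_trans (Finset.card_union_le _ _) ?_)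
  have := Finset.card_union_le (par T o x) (sib T o x)
  omega

lemma lk_par (T : Tri G F d) (hd : 6 ≤ d) {o x y z : V} (hy : y ∈ par T o x)
    (hz : z ∈ par T o x) (hne : y ≠ z) : Lk F x y z := by
  rw [mem_par T] at hy hz
  exact ⟨hne, hy.1.ne', hz.1.ne', par_face T hd o hy.1 hz.1 hy.2 hz.2 hne⟩

lemma lk_sib (T : Tri G F d) (hd : 6 ≤ d) {o x s : V} (hs : s ∈ sib T o x) :
    ∃ b ∈ par T o x, Lk F x b s := by
  rw [mem_sib T] at hs
  obtain ⟨b, hb, f, hf, h1, h2, h3⟩ := sib_face T hd o hs.1 hs.2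
  have hbx : x ≠ b := by rintro rfl; omega
  have hbs : b ≠ s := by rintro rfl; omega
  exact ⟨b, (mem_par T).2 ⟨(T.face f hf).2 x h1 b h3 hbx, hb⟩,
    hbs, hbx.symm, hs.1.ne', f, hf, h1, h3, h2⟩

lemma lk_of_par (T : Tri G F d) {o x b e : V} (hb : b ∈ par T o x) (h : Lk F x b e)
    (he : e ∉ par T o x) : e ∈ sib T o x := by
  obtain ⟨h1, h2, h3⟩ := Lk.adj T h
  rw [mem_par T] at hb he
  rw [mem_sib T]
  refine ⟨h2, ?_⟩
  have k1 := lev_le T o e b h3.symm
  have k2 := lev_le T o x e h2
  have k3 : G.dist o e + 1 ≠ G.dist o x := fun hh => he ⟨h2, hh⟩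
  omega

lemma shape2 (T : Tri G F d) (hd : 6 ≤ d) {o x b c1 c2 : V}
    (hb : b ∈ par T o x) (h1 : Lk F x b c1) (h2 : Lk F x b c2) (h12 : c1 ≠ c2)
    (hc1 : c1 ∈ par T o x) (hc2 : c2 ∉ par T o x) :
    (par T o x).card = 2 ∧ (sib T o x).card = 2 := by
  have k := lk_only T h1 h2 h12
  have hpar : par T o x = {b, c1} := by
    ext v
    simp only [Finset.mem_insert, Finset.mem_singleton]
    constructor
    · intro hv
      by_cases hvb : v = b
      · exact Or.inl hvb
      · rcases k v (lk_par T hd hb hv (Ne.symm hvb)) with h | h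
        · exact Or.inr h
        · rw [h] at hv; exact absurd hv hc2
    · rintro (rfl | rfl) <;> assumption
  -- the other link neighbour of `c1`
  obtain ⟨e1, e2, ene, m1, m2, m3⟩ := two_lk T (Lk.adj T h1).2.1
  obtain ⟨e, he, heb⟩ : ∃ e, Lk F x c1 e ∧ e ≠ b := by
    by_cases h : e1 = b
    · exact ⟨e2, m2, fun hh => ene (by rw [h, hh])⟩
    · exact ⟨e1, m1, h⟩
  have ke := lk_only T h1.symm he (Ne.symm heb)
  have hec : e ≠ c2 := by
    rintro rfl
    exact no_tri T hd h1 he h2
  have hep : e ∉ par T o x := by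
    rw [hpar]
    simp only [Finset.mem_insert, Finset.mem_singleton, not_or]
    exact ⟨heb, he.1.symm⟩
  have hes := lk_of_par T hc1 he hep
  have hc2s := lk_of_par T hb h2 hc2
  have hsib : sib T o x = {c2, e} := by
    ext v
    simp only [Finset.mem_insert, Finset.mem_singleton]
    constructor
    · intro hv
      obtain ⟨b', hb', hl⟩ := lk_sib T hd hv
      have hvp : v ∉ par T o x := by
        intro h; rw [mem_par T] at h; rw [mem_sib T] at hv; omega
      rw [hpar] at hb' hvp
      simp only [Finset.mem_insert, Finset.mem_singleton, not_or] at hb' hvp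
      rcases hb' with rfl | rfl
      · rcases k v hl with h | h
        · exact absurd h hvp.2
        · exact Or.inl h
      · rcases ke v hl with h | h
        · exact absurd h hvp.1
        · exact Or.inr h
    · rintro (rfl | rfl) <;> assumption
  rw [hpar, hsib, Finset.card_pair h1.1, Finset.card_pair hec.symm]
  exact ⟨rfl, rfl⟩

lemma shape (T : Tri G F d) (hd : 6 ≤ d) {o x : V} (hx : 0 < G.dist o x) :
    ((par T o x).card = 1 ∨ (par T o x).card = 2) ∧ (sib T o x).card = 2 := by
  obtain ⟨b, hb1, hb2⟩ := exists_parent T o hx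
  have hb : b ∈ par T o x := (mem_par T).2 ⟨hb1, hb2⟩
  obtain ⟨c1, c2, hne, h1, h2, h3⟩ := two_lk T hb1
  by_cases q1 : c1 ∈ par T o x <;> by_cases q2 : c2 ∈ par T o x
  · exact absurd (lk_par T hd q1 q2 hne) (fun h => no_tri T hd h1 h h2)
  · have := shape2 T hd hb h1 h2 hne q1 q2
    exact ⟨Or.inr this.1, this.2⟩
  · have := shape2 T hd hb h2 h1 hne.symm q2 q1
    exact ⟨Or.inr this.1, this.2⟩
  · have hpar : par T o x = {b} := by
      ext v
      simp only [Finset.mem_singleton]
      constructor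
      · intro hv
        by_contra hvb
        rcases h3 v (lk_par T hd hb hv (Ne.symm hvb)) with h | h
        · rw [h] at hv; exact q1 hv
        · rw [h] at hv; exact q2 hv
      · rintro rfl; exact hb
    have s1 := lk_of_par T hb h1 q1
    have s2 := lk_of_par T hb h2 q2
    have hsib : sib T o x = {c1, c2} := by
      ext v
      simp only [Finset.mem_insert, Finset.mem_singleton]
      constructor
      · intro hv
        obtain ⟨b', hb', hl⟩ := lk_sib T hd hv
        rw [hpar, Finset.mem_singleton] at hb'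
        rw [hb'] at hl
        exact h3 v hl
      · rintro (rfl | rfl) <;> assumption
    rw [hpar, hsib, Finset.card_pair hne]
    exact ⟨Or.inl (by simp), rfl⟩

/-- children with two parents -/
noncomputable def chB (T : Tri G F d) (o x : V) : Finset V :=
  (chl T o x).filter (fun c => ¬ (par T o c).card = 1)

lemma card_chB (T : Tri G F d) (hd : 6 ≤ d) {o x : V} (hx : 0 < G.dist o x) :
    (chB T o x).card ≤ 2 := by
  have hmap : ∀ c ∈ chB T o x, ∃ s ∈ sib T o x, Lk F x s c := by
    intro c hc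
    unfold chB at hc
    rw [Finset.mem_filter, mem_chl T] at hc
    have hxc : x ∈ par T o c := (mem_par T).2 ⟨hc.1.1.symm, by omega⟩
    have hcard := (shape T hd (o := o) (x := c) (by omega)).1
    obtain ⟨y, hy, hyx⟩ : ∃ y ∈ par T o c, y ≠ x := Finset.exists_mem_ne (by omega) x
    have hl := lk_par T hd hxc hy (Ne.symm hyx)
    have hl2 := hl.rot
    refine ⟨y, (mem_sib T).2 ⟨(Lk.adj T hl2).2.1, ?_⟩, hl2.symm⟩
    rw [mem_par T] at hxc hy
    omega
  choose! g hg1 hg2 using hmap
  rw [← (shape T hd hx).2]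
  apply Finset.card_le_card_of_injOn g hg1
  intro c hc c' hc' h
  have hc0 : c ∈ chB T o x := hc
  have hc0' : c' ∈ chB T o x := hc'
  by_contra hne
  have l1 := hg2 c hc0
  have l2 := hg2 c' hc0'
  rw [← h] at l2
  obtain ⟨b, hb, hl⟩ := lk_sib T hd (hg1 c hc0)
  have := lk_only T l1 l2 hne b hl.symm
  unfold chB at hc0 hc0'
  rw [Finset.mem_filter, mem_chl T] at hc0 hc0'
  rw [mem_par T] at hb
  rcases this with rfl | rfl
  · omega
  · omega

end Pool.Agent.H90.TR
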