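import Pool.Agent.H90.TR.Side

set_option autoImplicit false

open Classical

namespace Pool.Agent.H90.TR

variable {V : Type} {G : SimpleGraph V} {F : Set (Finset V)} {d : ℕ} {N : ℕ} {c : ℕ → V}

lemma sum_split (f : ℕ → ℕ) {N r : ℕ} (hr : 1 ≤ r) (hN : 2 * r ≤ N) :
    ∑ k ∈ Finset.range N, f k = f 0 + ∑ k ∈ Finset.Ico 1 r, f k
      + ∑ k ∈ Finset.Ico r (N - r + 1), f k + ∑ j ∈ Finset.Ico 1 r, f (N - j) := by
  have h1 := Finset.sum_Ico_reflect f 1 (m := r) (n := N) (by omega)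
  rw [h1, show N + 1 - 1 = N by omega, show N + 1 - r = N - r + 1 by omega]
  have h2 : f 0 = ∑ k ∈ Finset.Ico 0 1, f k := by simp
  rw [h2, Finset.sum_Ico_consecutive f (by omega) hr,
    Finset.sum_Ico_consecutive f (by omega) (by omega),
    Finset.sum_Ico_consecutive f (by omega) (by omega), Finset.range_eq_Ico]

/-- everything the two sides give -/
lemma both (T : Tri G F d) (hd : 6 ≤ d) {lev : V → ℕ}
    (hlev : ∀ x y, G.Adj x y → lev x ≤ lev y + 1) {p q : ℕ → V} {m r : ℕ}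
    (hr : 1 ≤ r) (hN3 : 3 ≤ N)
    (hlp : ∀ j ≤ r, lev (p j) = m + j) (hlq : ∀ j ≤ r, lev (q j) = m + j)
    (hap : ∀ j < r, G.Adj (p j) (p (j + 1))) (haq : ∀ j < r, G.Adj (q j) (q (j + 1)))
    (h0 : p 0 = q 0)
    (htop : (N = 2 * r ∧ p r = q r) ∨ (N = 2 * r + 1 ∧ G.Adj (p r) (q r)))
    (hne : ∀ j, 1 ≤ j → j < r → p j ≠ q j) :
    ∃ (D : Finset (Finset V)) (gp gq : ℕ → Finset V), Inside G F N (mk N r p q) D ∧
      (∀ j < r, gp j ∈ D ∧ p j ∈ gp j ∧ p (j + 1) ∈ gp j) ∧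
      (∀ j < r, gq j ∈ D ∧ q j ∈ gq j ∧ q (j + 1) ∈ gq j) ∧
      (∀ k < N, ∀ a, G.Adj (mk N r p q k) a → (Odd (cnt D (mk N r p q k) a) ↔
        a = mk N r p q (k + 1) ∨ a = mk N r p q (prv N k))) ∧
      ∃ A B : ℕ,
      A + B + tt D (p 0) + ∑ k ∈ Finset.Ico r (N - r + 1), tt D (mk N r p q k) + 6 ≤ 3 * N ∧
      3 * (r - 1) + (if lam lev (gp (r - 1)) = 3 * (m + (r - 1)) + 2 then 1 else 0) ≤ A + 1 ∧
      3 * (r - 1) + (if lam lev (gq (r - 1)) = 3 * (m + (r - 1)) + 2 then 1 else 0) ≤ B + 1 := by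
  have hc := mk_cyc hr hN3 hlp hlq hap haq h0 htop hne
  have hN : N = 2 * r ∨ N = 2 * r + 1 := by
    rcases htop with h | h
    · exact Or.inl h.1
    · exact Or.inr h.1
  obtain ⟨D, hD⟩ := exists_inside T hc
  have hgb := gb T hd hc hD
  have cp : ∀ j ≤ r, mk N r p q j = p j := fun j hj => by unfold mk; rw [if_pos hj]
  have cq : ∀ j, j ≤ r → j < N - r → mk N r p q (N - j) = q j := fun j hj hj' => by
    unfold mk
    rw [if_neg (by omega)]
    congr 1; omega
  have cqr : mk N r p q (N - r) = q r := by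
    rcases htop with ⟨h1, h2⟩ | ⟨h1, h2⟩
    · have : N - r = r := by omega
      rw [this, cp r le_rfl, h2]
    · exact cq r le_rfl (by omega)
  have hbk : ∀ k < N, ∀ a, G.Adj (mk N r p q k) a → (Odd (cnt D (mk N r p q k) a) ↔
        a = mk N r p q (k + 1) ∨ a = mk N r p q (prv N k)) := by
    intro k hk a ha
    rw [← hD.2 _ _ ha, mem_eset_at hc hk]
  have hedge : ∀ k < N, ∃ f ∈ D, mk N r p q k ∈ f ∧ mk N r p q (k + 1) ∈ f := by
    intro k hk
    have h1 := (hD.2 _ _ (hc.adj k hk)).1 ((mem_eset _).2 ⟨k, hk, rfl⟩)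
    apply exists_of_cnt
    intro h; rw [h] at h1; simp at h1
  have hgp : ∀ j, ∃ f, j < r → f ∈ D ∧ p j ∈ f ∧ p (j + 1) ∈ f := by
    intro j
    by_cases hj : j < r
    · obtain ⟨f, hf, h1, h2⟩ := hedge j (by omega)
      rw [cp j (by omega)] at h1
      rw [cp (j + 1) (by omega)] at h2
      exact ⟨f, fun _ => ⟨hf, h1, h2⟩⟩
    · exact ⟨∅, fun h => absurd h hj⟩
  have cq' : ∀ j ≤ r, mk N r p q (N - j) = q j := by
    intro j hj
    by_cases h : j < N - r
    · exact cq j hj h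
    · have : j = r := by omega
      rw [this]; exact cqr
  have hgq : ∀ j, ∃ f, j < r → f ∈ D ∧ q j ∈ f ∧ q (j + 1) ∈ f := by
    intro j
    by_cases hj : j < r
    · obtain ⟨f, hf, h1, h2⟩ := hedge (N - (j + 1)) (by omega)
      rw [cq' (j + 1) (by omega)] at h1
      rw [show N - (j + 1) + 1 = N - j by omega, cq' j (by omega)] at h2
      exact ⟨f, fun _ => ⟨hf, h2, h1⟩⟩
    · exact ⟨∅, fun h => absurd h hj⟩
  choose gp hgp using hgp
  choose gq hgq using hgq
  have sp := side T hlev hD.1 hlp hap hgp (by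
    intro j h1 h2 a ha
    have := hbk j (by omega) a (by rw [cp j (by omega)]; exact ha)
    rw [cp j (by omega), cp (j + 1) (by omega)] at this
    have hp : prv N j = j - 1 := by unfold prv; rw [if_neg (by omega)]
    rw [hp, cp (j - 1) (by omega)] at this
    rw [this]; exact or_comm) (r - 1) (by omega)
  have sq := side T hlev hD.1 hlq haq hgq (by
    intro j h1 h2 a ha
    have := hbk (N - j) (by omega) a (by rw [cq' j (by omega)]; exact ha)
    rw [cq' j (by omega), show N - j + 1 = N - (j - 1) by omega, cq' (j - 1) (by omega)] at this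
    have hp : prv N (N - j) = N - (j + 1) := by unfold prv; rw [if_neg (by omega)]; omega
    rw [hp, cq' (j + 1) (by omega)] at this
    exact this) (r - 1) (by omega)
  rw [show r - 1 + 1 = r by omega] at sp sq
  refine ⟨D, gp, gq, hD, hgp, hgq, hbk, ∑ j ∈ Finset.Ico 1 r, tt D (p j),
    ∑ j ∈ Finset.Ico 1 r, tt D (q j), ?_, ?_, ?_⟩
  · rw [sum_split _ hr (by omega)] at hgb
    have e1 : ∑ k ∈ Finset.Ico 1 r, tt D (mk N r p q k) = ∑ j ∈ Finset.Ico 1 r, tt D (p j) := by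
      apply Finset.sum_congr rfl
      intro j hj
      rw [Finset.mem_Ico] at hj
      rw [cp j (by omega)]
    have e2 : ∑ j ∈ Finset.Ico 1 r, tt D (mk N r p q (N - j))
        = ∑ j ∈ Finset.Ico 1 r, tt D (q j) := by
      apply Finset.sum_congr rfl
      intro j hj
      rw [Finset.mem_Ico] at hj
      rw [cq' j (by omega)]
    rw [e1, e2, cp 0 (by omega)] at hgb
    omega
  · split_ifs at sp ⊢ <;> omega
  · split_ifs at sq ⊢ <;> omega

/-- bigons: two geodesics that only meet at their ends have adjacent last steps -/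
lemma bigon (T : Tri G F d) (hd : 6 ≤ d) {lev : V → ℕ}
    (hlev : ∀ x y, G.Adj x y → lev x ≤ lev y + 1) {p q : ℕ → V} {m r : ℕ}
    (hr : 2 ≤ r)
    (hlp : ∀ j ≤ r, lev (p j) = m + j) (hlq : ∀ j ≤ r, lev (q j) = m + j)
    (hap : ∀ j < r, G.Adj (p j) (p (j + 1))) (haq : ∀ j < r, G.Adj (q j) (q (j + 1)))
    (h0 : p 0 = q 0) (htop : p r = q r)
    (hne : ∀ j, 1 ≤ j → j < r → p j ≠ q j) :
    ∃ f ∈ F, p r ∈ f ∧ p (r - 1) ∈ f ∧ q (r - 1) ∈ f := by
  obtain ⟨D, gp, gq, hD, hgp, hgq, hbk, A, B, h1, h2, h3⟩ :=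
    both (N := 2 * r) T hd hlev (by omega) (by omega) hlp hlq hap haq h0
      (Or.inl ⟨rfl, htop⟩) hne
  rw [show 2 * r - r + 1 = r + 1 by omega] at h1
  have e1 : ∑ k ∈ Finset.Ico r (r + 1), tt D (mk (2 * r) r p q k) = tt D (p r) := by
    rw [Finset.sum_Ico_succ_top le_rfl]
    simp [mk]
  rw [e1] at h1
  have e2 : 1 ≤ tt D (p 0) := by
    unfold tt
    apply Finset.card_pos.2
    obtain ⟨a, b, _⟩ := hgp 0 (by omega)
    exact ⟨gp 0, by simp [a, b]⟩
  have e3 : tt D (p r) ≤ 1 := by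
    have : 3 * (r - 1) ≤ A + 1 := le_trans (Nat.le_add_right _ _) h2
    have : 3 * (r - 1) ≤ B + 1 := le_trans (Nat.le_add_right _ _) h3
    omega
  obtain ⟨a1, a2, a3⟩ := hgp (r - 1) (by omega)
  obtain ⟨b1, b2, b3⟩ := hgq (r - 1) (by omega)
  rw [show r - 1 + 1 = r by omega] at a3 b3
  rw [← htop] at b3
  have heq : gp (r - 1) = gq (r - 1) := by
    unfold tt at e3
    rw [Finset.card_le_one] at e3
    exact e3 _ (by simp [a1, a3]) _ (by simp [b1, b3])
  exact ⟨gp (r - 1), hD.1 _ a1, a3, a2, by rw [heq]; exact b2⟩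

/-- triangles: an edge joining two vertices of the same level lies in a face whose third
vertex is one level below -/
lemma triangle (T : Tri G F d) (hd : 6 ≤ d) {lev : V → ℕ}
    (hlev : ∀ x y, G.Adj x y → lev x ≤ lev y + 1) {p q : ℕ → V} {m r : ℕ}
    (hr : 1 ≤ r)
    (hlp : ∀ j ≤ r, lev (p j) = m + j) (hlq : ∀ j ≤ r, lev (q j) = m + j)
    (hap : ∀ j < r, G.Adj (p j) (p (j + 1))) (haq : ∀ j < r, G.Adj (q j) (q (j + 1)))
    (h0 : p 0 = q 0) (htop : G.Adj (p r) (q r))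
    (hne : ∀ j, 1 ≤ j → j < r → p j ≠ q j) :
    ∃ f ∈ F, p r ∈ f ∧ q r ∈ f ∧ ∃ b ∈ f, lev b + 1 = m + r := by
  obtain ⟨D, gp, gq, hD, hgp, hgq, hbk, A, B, h1, h2, h3⟩ :=
    both (N := 2 * r + 1) T hd hlev (by omega) (by omega) hlp hlq hap haq h0
      (Or.inr ⟨rfl, htop⟩) hne
  rw [show 2 * r + 1 - r + 1 = r + 1 + 1 by omega] at h1
  have c0 : mk (2 * r + 1) r p q r = p r := by simp [mk]
  have c1 : mk (2 * r + 1) r p q (r + 1) = q r := by
    unfold mk; rw [if_neg (by omega)]; congr 1; omega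
  have c2 : mk (2 * r + 1) r p q (r - 1) = p (r - 1) := by
    unfold mk; rw [if_pos (by omega)]
  have c3 : mk (2 * r + 1) r p q (r + 1 + 1) = q (r - 1) := by
    unfold mk; rw [if_neg (by omega)]; congr 1; omega
  have e1 : ∑ k ∈ Finset.Ico r (r + 1 + 1), tt D (mk (2 * r + 1) r p q k)
      = tt D (p r) + tt D (q r) := by
    rw [Finset.sum_Ico_succ_top (by omega), Finset.sum_Ico_succ_top le_rfl, c0, c1]
    simp
  rw [e1] at h1
  have e2 : 1 ≤ tt D (p 0) := by
    unfold tt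
    apply Finset.card_pos.2
    obtain ⟨a, b, _⟩ := hgp 0 (by omega)
    exact ⟨gp 0, by simp [a, b]⟩
  obtain ⟨a1, a2, a3⟩ := hgp (r - 1) (by omega)
  obtain ⟨b1, b2, b3⟩ := hgq (r - 1) (by omega)
  rw [show r - 1 + 1 = r by omega] at a3 b3
  have hp1 : prv (2 * r + 1) r = r - 1 := by unfold prv; rw [if_neg (by omega)]
  have hp2 : prv (2 * r + 1) (r + 1) = r := by unfold prv; rw [if_neg (by omega)]; omega
  -- the face at the top edge
  have hodd : Odd (cnt D (p r) (q r)) := by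
    have := hbk r (by omega) (q r) (by rw [c0]; exact htop)
    rw [c0, c1] at this
    exact this.2 (Or.inl rfl)
  obtain ⟨g, hg, hg1, hg2⟩ := exists_of_cnt (S := D) (x := p r) (y := q r) (by
    intro h; rw [h] at hodd; simp at hodd)
  refine ⟨g, hD.1 g hg, hg1, hg2, ?_⟩
  have hfc := T.face g (hD.1 g hg)
  obtain ⟨b, hb, hb1, hb2⟩ := third hfc.1 hg1 hg2 htop.ne
  refine ⟨b, hb, ?_⟩
  by_contra hcon
  have l1 := hlp r le_rfl
  have l2 := hlq r le_rfl
  have l3 := hlp (r - 1) (by omega)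
  have l4 := hlq (r - 1) (by omega)
  have k1 := hlev (p r) b (hfc.2 _ hg1 b hb hb1)
  have hL := (lam_eq lev hfc.1 hg1 hg2 hb htop.ne hb1 hb2).2
  have adp : G.Adj (p r) (p (r - 1)) := by
    have := (hap (r - 1) (by omega)).symm
    rwa [show r - 1 + 1 = r by omega] at this
  have adq : G.Adj (q r) (q (r - 1)) := by
    have := (haq (r - 1) (by omega)).symm
    rwa [show r - 1 + 1 = r by omega] at this
  have t1 := corner T hlev hD.1 (v := p r) (u := p (r - 1)) (u' := q r) adp (by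
      intro a ha
      have := hbk r (by omega) a (by rw [c0]; exact ha)
      rw [c0, c1, hp1, c2] at this
      rw [this]; exact or_comm) (by omega) (by omega) a1 hg a3 hg1 (by omega)
  have t2 := corner T hlev hD.1 (v := q r) (u := q (r - 1)) (u' := p r) adq (by
      intro a ha
      have := hbk (r + 1) (by omega) a (by rw [c1]; exact ha)
      rw [c1, c3, hp2, c0] at this
      exact this) (by omega) (by omega) b1 hg b3 hg2 (by omega)
  have lamp : ∀ (P : ℕ → V) (g : Finset V), lev (P (r - 1)) = m + (r - 1) → lev (P r) = m + r →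
      G.Adj (P r) (P (r - 1)) → g ∈ D → P (r - 1) ∈ g → P r ∈ g →
      lam lev g = 3 * (m + (r - 1)) + 1 ∨ lam lev g = 3 * (m + (r - 1)) + 2 := by
    intro P g p1 p2 p3 p4 p5 p6
    have hfc := T.face g (hD.1 _ p4)
    obtain ⟨b, hb1, hb2, hb3⟩ := third hfc.1 p5 p6 p3.ne'
    have e := (lam_eq lev hfc.1 p5 p6 hb1 p3.ne' hb2 hb3).2
    have k1 := hlev b (P (r - 1)) (hfc.2 b hb1 _ p5 hb2.symm)
    have k2 := hlev (P r) b (hfc.2 _ p6 b hb1 hb3)
    omega
  have lp := lamp p (gp (r - 1)) l3 l1 adp a1 a2 a3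
  have lq := lamp q (gq (r - 1)) l4 l2 adq b1 b2 b3
  rw [l1] at t1
  rw [l2] at t2
  split_ifs at t1 t2 h2 h3 <;> omega

end Pool.Agent.H90.TR
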